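import Pool.Agent.H59.Clock.Pad

/-!
Clocked simulation: from a machine `M` over `A` and a machine `C` over the one-letter alphabet we
obtain a machine over `Option A` which on an input `v` runs `M` on the input with the letters
`none` read as blanks and `C` on `1 ^ |v|` in parallel, and accepts when `C` accepts, provided that
`M` has accepted by then.
-/

namespace Pool.Agent.H59.Clock

open Pool.Agent.Lead.NTM

namespace GM

variable {A : Type}

/-- Decoding of a symbol for the first machine. -/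
def decM {G H : Type} : Option (Option A ⊕ (G ⊕ H)) → Option (A ⊕ G)
  | some (.inl (some a)) => some (.inl a)
  | some (.inr (.inl g)) => some (.inr g)
  | _ => none

/-- Encoding of a symbol of the first machine. -/
def encM {G H : Type} : Option (A ⊕ G) → Option (Option A ⊕ (G ⊕ H))
  | some (.inl a) => some (.inl (some a))
  | some (.inr g) => some (.inr (.inl g))
  | none => none

theorem decM_encM {G H : Type} (x : Option (A ⊕ G)) :
    decM (encM x : Option (Option A ⊕ (G ⊕ H))) = x := by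
  rcases x with _ | (a | g) <;> rfl

/-- Decoding of a symbol for the second machine. -/
def decC {G H : Type} : Option (Option A ⊕ (G ⊕ H)) → Option H
  | some (.inr (.inr h)) => some h
  | _ => none

/-- Encoding of a symbol of the second machine. -/
def encC {G H : Type} : Option H → Option (Option A ⊕ (G ⊕ H))
  | some h => some (.inr (.inr h))
  | none => none

theorem decC_encC {G H : Type} (x : Option H) :
    decC (encC x : Option (Option A ⊕ (G ⊕ H))) = x := by
  rcases x with _ | h <;> rfl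

theorem decM_wordTape {G H : Type} (w : List A) (j : ℕ) (z : ℤ) :
    decM (wordTape (w.map some ++ List.replicate j none) z : Option (Option A ⊕ (G ⊕ H))) =
      wordTape w z := by
  unfold wordTape
  by_cases h0 : 0 ≤ z
  · rw [if_pos h0, if_pos h0]
    by_cases h1 : z.toNat < w.length
    · rw [List.getElem?_append_left (by simpa using h1), List.getElem?_map,
        List.getElem?_eq_getElem h1]
      rfl
    · rw [List.getElem?_append_right (by simpa using h1), List.getElem?_replicate]
      rw [List.getElem?_eq_none (by omega)]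
      split_ifs <;> rfl
  · rw [if_neg h0, if_neg h0]
    rfl

/-- The marks on the first `m` cells. -/
def mt {G H : Type} (m : ℕ) (z : ℤ) : Option (Option A ⊕ (G ⊕ (Unit ⊕ H))) :=
  encC (wordTape (List.replicate m ()) z)

theorem update_mt {G H : Type} (m : ℕ) :
    Function.update (mt m : ℤ → Option (Option A ⊕ (G ⊕ (Unit ⊕ H)))) (m : ℤ)
      (some (.inr (.inr (.inl ())))) = mt (m + 1) := by
  funext z
  by_cases hz : z = m
  · subst hz
    rw [Function.update_self]
    unfold mt wordTape
    rw [if_pos (by omega), List.getElem?_replicate, if_pos (by omega)]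
    rfl
  · rw [Function.update_of_ne hz]
    unfold mt wordTape
    by_cases h0 : 0 ≤ z
    · rw [if_pos h0, if_pos h0, List.getElem?_replicate, List.getElem?_replicate]
      by_cases h1 : z.toNat < m
      · rw [if_pos h1, if_pos (by omega)]
      · rw [if_neg h1, if_neg (by omega)]
    · rw [if_neg h0, if_neg h0]

variable (M : GM A) (C : GM Unit)

open Classical in
/-- move on the two input tapes only -/
noncomputable def mv2 (m : Move) : M.ι ⊕ C.ι → Move :=
  fun j => if j = .inl M.i0 ∨ j = .inr C.i0 then m else .stay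

/-- The effect of a step of the second machine alone. -/
def rC (q : Option M.Q) (x : M.ι ⊕ C.ι → Option (Option A ⊕ (M.G ⊕ (Unit ⊕ C.G)))) (r : C.Ac) :
    (Bool ⊕ (Option M.Q × C.Q)) × (M.ι ⊕ C.ι → Option (Option A ⊕ (M.G ⊕ (Unit ⊕ C.G)))) ×
      (M.ι ⊕ C.ι → Move) :=
  (.inr (q, r.1), Sum.elim (fun i => x (.inl i)) (fun i => encC (r.2.1 i)),
    Sum.elim (fun _ => .stay) r.2.2)

/-- The effect of a step of both machines. -/
def rMC (r' : M.Ac) (r : C.Ac) :
    (Bool ⊕ (Option M.Q × C.Q)) × (M.ι ⊕ C.ι → Option (Option A ⊕ (M.G ⊕ (Unit ⊕ C.G)))) ×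
      (M.ι ⊕ C.ι → Move) :=
  (.inr (some r'.1, r.1), Sum.elim (fun i => encM (r'.2.1 i)) (fun i => encC (r.2.1 i)),
    Sum.elim r'.2.2 r.2.2)

/-- The clocked simulation. -/
@[reducible] noncomputable def clk : GM (Option A) where
  ι := M.ι ⊕ C.ι
  finι := by
    have := M.finι
    have := C.finι
    infer_instance
  i0 := .inl M.i0
  Q := Bool ⊕ (Option M.Q × C.Q)
  finQ := by
    have := M.finQ
    have := C.finQ
    infer_instance
  G := M.G ⊕ (Unit ⊕ C.G)
  finG := by
    have := M.finG
    have := C.finG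
    infer_instance
  start := .inl false
  acc := {q | ∃ p ∈ C.acc, q = .inr (none, p) ∨ ∃ q' ∈ M.acc, q = .inr (some q', p)}
  δ := fun q x => match q with
    | .inl false => if (x (.inl M.i0)).isSome = true then
        {(.inl false, (open Classical in Function.update x (.inr C.i0)
          (some (.inr (.inr (.inl ()))))), mv2 M C .right)}
        else {(.inl true, x, mv2 M C .left)}
    | .inl true => if (x (.inl M.i0)).isSome = true then {(.inl true, x, mv2 M C .left)}
        else {(.inr (some M.start, C.start), x, mv2 M C .right)}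
    | .inr (none, p) => {r | ∃ r₂ ∈ C.δ p (fun i => decC (x (.inr i))), r = rC M C none x r₂}
    | .inr (some q, p) => {r | ∃ r₂ ∈ C.δ p (fun i => decC (x (.inr i))),
        (∃ r₁ ∈ M.δ q (fun i => decM (x (.inl i))), r = rMC M C r₁ r₂) ∨
          (q ∈ M.acc ∧ r = rC M C none x r₂)}

variable {M C}

/-- The configuration of the first machine. -/
def FM (q : M.Q) (d : (clk M C).Conf) : M.Conf :=
  ⟨q, fun i z => decM (d.tp (.inl i) z), fun i => d.ps (.inl i)⟩

/-- The configuration of the second machine. -/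
def FC (p : C.Q) (d : (clk M C).Conf) : C.Conf :=
  ⟨p, fun i z => decC (d.tp (.inr i) z), fun i => d.ps (.inr i)⟩

theorem FC_act (p : C.Q) (d : (clk M C).Conf) (q : Option M.Q) (r : C.Ac) :
    FC r.1 (act d (rC M C q (rd d) r)) = act (FC p d) r := by
  refine Conf.ext rfl ?_ ?_
  · funext i z
    show decC (Function.update (d.tp (.inr i)) (d.ps (.inr i)) (encC (r.2.1 i)) z) =
      Function.update (fun z => decC (d.tp (.inr i) z)) (d.ps (.inr i)) (r.2.1 i) z
    by_cases hz : z = d.ps (.inr i)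
    · subst hz
      rw [Function.update_self, Function.update_self, decC_encC]
    · rw [Function.update_of_ne hz, Function.update_of_ne hz]
  · rfl

theorem FC_act' (p : C.Q) (d : (clk M C).Conf) (r' : M.Ac) (r : C.Ac) :
    FC r.1 (act d (rMC M C r' r)) = act (FC p d) r := by
  refine Conf.ext rfl ?_ ?_
  · funext i z
    show decC (Function.update (d.tp (.inr i)) (d.ps (.inr i)) (encC (r.2.1 i)) z) =
      Function.update (fun z => decC (d.tp (.inr i) z)) (d.ps (.inr i)) (r.2.1 i) z
    by_cases hz : z = d.ps (.inr i)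
    · subst hz
      rw [Function.update_self, Function.update_self, decC_encC]
    · rw [Function.update_of_ne hz, Function.update_of_ne hz]
  · rfl

theorem FM_act (q : M.Q) (d : (clk M C).Conf) (r' : M.Ac) (r : C.Ac) :
    FM r'.1 (act d (rMC M C r' r)) = act (FM q d) r' := by
  refine Conf.ext rfl ?_ ?_
  · funext i z
    show decM (Function.update (d.tp (.inl i)) (d.ps (.inl i)) (encM (r'.2.1 i)) z) =
      Function.update (fun z => decM (d.tp (.inl i) z)) (d.ps (.inl i)) (r'.2.1 i) z
    by_cases hz : z = d.ps (.inl i)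
    · subst hz
      rw [Function.update_self, Function.update_self, decM_encM]
    · rw [Function.update_of_ne hz, Function.update_of_ne hz]
  · rfl

theorem run_none (n : ℕ) : ∀ (p : C.Q) (d : (clk M C).Conf), d.st = .inr (none, p) →
    ((∃ d', Rch n d d' ∧ d'.st ∈ (clk M C).acc) ↔ ∃ c', Rch n (FC p d) c' ∧ c'.st ∈ C.acc) := by
  induction n with
  | zero =>
    intro p d hd
    constructor
    · rintro ⟨d', h, ha⟩
      have : d = d' := h
      subst this
      rw [hd] at ha
      obtain ⟨p', hp', h | ⟨q', -, h⟩⟩ := ha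
      · cases h
        exact ⟨_, rfl, hp'⟩
      · cases h
    · rintro ⟨c', h, ha⟩
      have : FC p d = c' := h
      subst this
      exact ⟨d, rfl, p, ha, Or.inl hd⟩
  | succ n ih =>
    intro p d hd
    constructor
    · rintro ⟨d', ⟨e, ⟨r, hr, rfl⟩, h⟩, ha⟩
      rw [hd] at hr
      obtain ⟨r₂, hr₂, rfl⟩ := hr
      obtain ⟨c', h1, h2⟩ := (ih r₂.1 _ rfl).1 ⟨d', h, ha⟩
      rw [FC_act p] at h1
      exact ⟨c', ⟨_, ⟨r₂, hr₂, rfl⟩, h1⟩, h2⟩
    · rintro ⟨c', ⟨e, ⟨r₂, hr₂, rfl⟩, h⟩, ha⟩
      rw [← FC_act p d none] at h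
      obtain ⟨d', h1, h2⟩ := (ih r₂.1 (act d (rC M C none (rd d) r₂)) rfl).2 ⟨c', h, ha⟩
      refine ⟨d', ⟨_, ⟨_, ?_, rfl⟩, h1⟩, h2⟩
      rw [hd]
      exact ⟨r₂, hr₂, rfl⟩

theorem run_some (n : ℕ) : ∀ (q : M.Q) (p : C.Q) (d : (clk M C).Conf), d.st = .inr (some q, p) →
    ((∃ d', Rch n d d' ∧ d'.st ∈ (clk M C).acc) ↔ (∃ c', Rch n (FC p d) c' ∧ c'.st ∈ C.acc) ∧
      ∃ s ≤ n, ∃ c', Rch s (FM q d) c' ∧ c'.st ∈ M.acc) := by
  induction n with
  | zero =>
    intro q p d hd
    constructor
    · rintro ⟨d', h, ha⟩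
      have : d = d' := h
      subst this
      rw [hd] at ha
      obtain ⟨p', hp', h | ⟨q', hq', h⟩⟩ := ha
      · cases h
      · cases h
        exact ⟨⟨_, rfl, hp'⟩, 0, le_rfl, _, rfl, hq'⟩
    · rintro ⟨⟨c', h, ha⟩, s, hs, c'', h', ha'⟩
      have : FC p d = c' := h
      subst this
      obtain rfl : s = 0 := by omega
      have : FM q d = c'' := h'
      subst this
      exact ⟨d, rfl, p, ha, Or.inr ⟨q, ha', hd⟩⟩
  | succ n ih =>
    intro q p d hd
    constructor
    · rintro ⟨d', ⟨e, ⟨r, hr, rfl⟩, h⟩, ha⟩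
      rw [hd] at hr
      obtain ⟨r₂, hr₂, ⟨r₁, hr₁, rfl⟩ | ⟨hq, rfl⟩⟩ := hr
      · obtain ⟨⟨c', h1, h2⟩, s, hs, c'', h3, h4⟩ := (ih r₁.1 r₂.1 _ rfl).1 ⟨d', h, ha⟩
        rw [FC_act' p] at h1
        rw [FM_act q] at h3
        exact ⟨⟨c', ⟨_, ⟨r₂, hr₂, rfl⟩, h1⟩, h2⟩, s + 1, by omega, c'', ⟨_, ⟨r₁, hr₁, rfl⟩, h3⟩, h4⟩
      · obtain ⟨c', h1, h2⟩ := (run_none n r₂.1 _ rfl).1 ⟨d', h, ha⟩
        rw [FC_act p] at h1
        exact ⟨⟨c', ⟨_, ⟨r₂, hr₂, rfl⟩, h1⟩, h2⟩, 0, by omega, _, rfl, hq⟩
    · rintro ⟨⟨c', ⟨e, ⟨r₂, hr₂, rfl⟩, h⟩, ha⟩, s, hs, c'', h', ha'⟩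
      cases s with
      | zero =>
        have : FM q d = c'' := h'
        subst this
        rw [← FC_act p d none] at h
        obtain ⟨d', h1, h2⟩ := (run_none n r₂.1 (act d (rC M C none (rd d) r₂)) rfl).2 ⟨c', h, ha⟩
        refine ⟨d', ⟨_, ⟨_, ?_, rfl⟩, h1⟩, h2⟩
        rw [hd]
        exact ⟨r₂, hr₂, Or.inr ⟨ha', rfl⟩⟩
      | succ s =>
        obtain ⟨e', ⟨r₁, hr₁, rfl⟩, h''⟩ := h'
        rw [← FC_act' p d r₁] at h
        rw [← FM_act q d r₁ r₂] at h''
        obtain ⟨d', h1, h2⟩ := (ih r₁.1 r₂.1 (act d (rMC M C r₁ r₂)) rfl).2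
          ⟨⟨c', h, ha⟩, s, by omega, c'', h'', ha'⟩
        refine ⟨d', ⟨_, ⟨_, ?_, rfl⟩, h1⟩, h2⟩
        rw [hd]
        exact ⟨r₂, hr₂, Or.inl ⟨r₁, hr₁, rfl⟩⟩

/-! ### The loading phase -/

open Classical in
/-- A configuration before the run. -/
noncomputable def lc (q : Bool ⊕ (Option M.Q × C.Q)) (v : List (Option A)) (m : ℕ) (z : ℤ) :
    (clk M C).Conf where
  st := q
  tp := fun i => if i = .inl M.i0 then wordTape v else if i = .inr C.i0 then mt m
    else fun _ => none
  ps := fun i => if i = .inl M.i0 ∨ i = .inr C.i0 then z else 0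

variable (q q' : Bool ⊕ (Option M.Q × C.Q)) (v : List (Option A)) (m : ℕ) (z : ℤ)

theorem lc_tpM : (lc (C := C) q v m z).tp (.inl M.i0) = wordTape v := if_pos rfl

theorem lc_tpC : (lc (M := M) (C := C) q v m z).tp (.inr C.i0) = mt m := by
  unfold lc
  simp

theorem lc_tp_ne {i : M.ι ⊕ C.ι} (h1 : i ≠ .inl M.i0) (h2 : i ≠ .inr C.i0) :
    (lc q v m z).tp i = fun _ => none := by
  unfold lc
  simp [h1, h2]

theorem lc_ps {i : M.ι ⊕ C.ι} (h : i = .inl M.i0 ∨ i = .inr C.i0) :
    (lc q v m z).ps i = z := if_pos h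

theorem lc_ps_ne {i : M.ι ⊕ C.ι} (h : ¬ (i = .inl M.i0 ∨ i = .inr C.i0)) :
    (lc q v m z).ps i = 0 := if_neg h

theorem lc_rd : rd (lc (C := C) q v m z) (.inl M.i0) = wordTape v z := by
  show (lc (C := C) q v m z).tp (.inl M.i0) ((lc (C := C) q v m z).ps (.inl M.i0)) = _
  rw [lc_tpM, lc_ps _ _ _ _ (Or.inl rfl)]

theorem lc_ps_act (mo : Move) (i : M.ι ⊕ C.ι) :
    (lc q v m z).ps i + (mv2 M C mo i).toInt = (lc q' v m (z + mo.toInt)).ps i := by
  by_cases h : i = .inl M.i0 ∨ i = .inr C.i0
  · rw [lc_ps _ _ _ _ h, lc_ps _ _ _ _ h]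
    unfold mv2
    rw [if_pos h]
  · rw [lc_ps_ne _ _ _ _ h, lc_ps_ne _ _ _ _ h]
    unfold mv2
    rw [if_neg h]
    rfl

theorem lc_act (mo : Move) :
    act (lc q v m z) (q', rd (lc q v m z), mv2 M C mo) = lc q' v m (z + mo.toInt) := by
  refine Conf.ext rfl ?_ ?_
  · funext i
    show Function.update ((lc q v m z).tp i) ((lc q v m z).ps i) (rd (lc q v m z) i) = _
    have : Function.update ((lc q v m z).tp i) ((lc q v m z).ps i) (rd (lc q v m z) i) =
      (lc q v m z).tp i := Function.update_eq_self _ _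
    rw [this]
    rfl
  · funext i
    exact lc_ps_act q q' v m z mo i

theorem lc_act' :
    act (lc q v m m) (q', (open Classical in Function.update (rd (lc q v m m))
      (.inr C.i0) (some (.inr (.inr (.inl ()))))), mv2 M C .right) = lc q' v (m + 1) (m + 1) := by
  classical
  refine Conf.ext rfl ?_ ?_
  · funext i
    show Function.update ((lc q v m m).tp i) ((lc q v m m).ps i)
      (Function.update (rd (lc q v m m)) (.inr C.i0) (some (.inr (.inr (.inl ())))) i) =
      (lc q' v (m + 1) _).tp i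
    by_cases h : i = .inr C.i0
    · subst h
      rw [lc_tpC, lc_tpC, lc_ps _ _ _ _ (Or.inr rfl), Function.update_self, update_mt]
    · rw [Function.update_of_ne h]
      have : Function.update ((lc q v m m).tp i) ((lc q v m m).ps i)
        (rd (lc q v m m) i) = (lc q v m m).tp i := Function.update_eq_self _ _
      rw [this]
      by_cases h1 : i = .inl M.i0
      · subst h1
        rw [lc_tpM, lc_tpM]
      · rw [lc_tp_ne _ _ _ _ h1 h, lc_tp_ne _ _ _ _ h1 h]
  · funext i
    show (lc q v m m).ps i + (mv2 M C .right i).toInt = (lc q' v (m + 1) (m + 1)).ps i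
    by_cases h : i = .inl M.i0 ∨ i = .inr C.i0
    · rw [lc_ps _ _ _ _ h, lc_ps _ _ _ _ h]
      unfold mv2
      rw [if_pos h]
      rfl
    · rw [lc_ps_ne _ _ _ _ h, lc_ps_ne _ _ _ _ h]
      unfold mv2
      rw [if_neg h]
      rfl

theorem lf_lt (hm : m < v.length) (e) :
    Stp (lc (M := M) (C := C) (.inl false) v m m) e ↔
      e = lc (.inl false) v (m + 1) (m + 1) := by
  have hs := (wordTape_isSome (G := M.G ⊕ (Unit ⊕ C.G)) v m).2 ⟨by omega, by omega⟩
  have hδ : (clk M C).δ (.inl false) (rd (lc (.inl false) v m m)) =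
      {(.inl false, (open Classical in Function.update (rd (lc (.inl false) v m m)) (.inr C.i0)
          (some (.inr (.inr (.inl ()))))), mv2 M C .right)} := by
    show (if (rd (lc (.inl false) v m m) (.inl M.i0)).isSome = true then _ else _) = _
    rw [lc_rd, if_pos hs]
  constructor
  · rintro ⟨r, hr, rfl⟩
    rw [show (lc (M := M) (C := C) (.inl false) v m m).st = .inl false from rfl, hδ] at hr
    rw [Set.mem_singleton_iff] at hr
    subst hr
    exact lc_act' _ _ _ _
  · rintro rfl
    refine ⟨_, ?_, (lc_act' (.inl false) (.inl false) v m).symm⟩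
    rw [show (lc (M := M) (C := C) (.inl false) v m m).st = .inl false from rfl, hδ]
    exact rfl

theorem lf_end (e) :
    Stp (lc (M := M) (C := C) (.inl false) v v.length v.length) e ↔
      e = lc (.inl true) v v.length (v.length - 1) := by
  have hs : ¬ (wordTape (G := M.G ⊕ (Unit ⊕ C.G)) v v.length).isSome = true := by
    rw [wordTape_isSome]
    omega
  have hδ : (clk M C).δ (.inl false) (rd (lc (.inl false) v v.length v.length)) =
      {(.inl true, rd (lc (.inl false) v v.length v.length), mv2 M C .left)} := by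
    show (if (rd (lc (.inl false) v v.length v.length) (.inl M.i0)).isSome = true
      then _ else _) = _
    rw [lc_rd, if_neg hs]
  have ha := lc_act (M := M) (C := C) (.inl false) (.inl true) v v.length v.length .left
  constructor
  · rintro ⟨r, hr, rfl⟩
    rw [show (lc (M := M) (C := C) (.inl false) v v.length v.length).st = .inl false from rfl,
      hδ] at hr
    rw [Set.mem_singleton_iff] at hr
    subst hr
    exact ha
  · rintro rfl
    refine ⟨_, ?_, ha.symm⟩
    rw [show (lc (M := M) (C := C) (.inl false) v v.length v.length).st = .inl false from rfl, hδ]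
    exact rfl

theorem lt_ge (h0 : 0 ≤ z) (h1 : z < v.length) (e) :
    Stp (lc (M := M) (C := C) (.inl true) v m z) e ↔ e = lc (.inl true) v m (z - 1) := by
  have hs := (wordTape_isSome (G := M.G ⊕ (Unit ⊕ C.G)) v z).2 ⟨h0, h1⟩
  have hδ : (clk M C).δ (.inl true) (rd (lc (.inl true) v m z)) =
      {(.inl true, rd (lc (.inl true) v m z), mv2 M C .left)} := by
    show (if (rd (lc (.inl true) v m z) (.inl M.i0)).isSome = true then _ else _) = _
    rw [lc_rd, if_pos hs]
  have ha := lc_act (M := M) (C := C) (.inl true) (.inl true) v m z .left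
  constructor
  · rintro ⟨r, hr, rfl⟩
    rw [show (lc (M := M) (C := C) (.inl true) v m z).st = .inl true from rfl, hδ] at hr
    rw [Set.mem_singleton_iff] at hr
    subst hr
    exact ha
  · rintro rfl
    refine ⟨_, ?_, ha.symm⟩
    rw [show (lc (M := M) (C := C) (.inl true) v m z).st = .inl true from rfl, hδ]
    exact rfl

theorem lt_end (e) :
    Stp (lc (M := M) (C := C) (.inl true) v m (-1)) e ↔
      e = lc (.inr (some M.start, C.start)) v m 0 := by
  have hs : ¬ (wordTape (G := M.G ⊕ (Unit ⊕ C.G)) v (-1)).isSome = true := by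
    rw [wordTape_isSome]
    omega
  have hδ : (clk M C).δ (.inl true) (rd (lc (.inl true) v m (-1))) =
      {(.inr (some M.start, C.start), rd (lc (.inl true) v m (-1)), mv2 M C .right)} := by
    show (if (rd (lc (.inl true) v m (-1)) (.inl M.i0)).isSome = true then _ else _) = _
    rw [lc_rd, if_neg hs]
  have ha := lc_act (M := M) (C := C) (.inl true) (.inr (some M.start, C.start)) v m (-1) .right
  constructor
  · rintro ⟨r, hr, rfl⟩
    rw [show (lc (M := M) (C := C) (.inl true) v m (-1)).st = .inl true from rfl, hδ] at hr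
    rw [Set.mem_singleton_iff] at hr
    subst hr
    exact ha
  · rintro rfl
    refine ⟨_, ?_, ha.symm⟩
    rw [show (lc (M := M) (C := C) (.inl true) v m (-1)).st = .inl true from rfl, hδ]
    exact rfl

theorem lc_notMem (b : Bool) : (lc (M := M) (C := C) (.inl b) v m z).st ∉ (clk M C).acc := by
  rintro ⟨p, -, h | ⟨q, -, h⟩⟩
  · cases h
  · cases h

theorem dn_lf (i : ℕ) (hi : i ≤ v.length) :
    DN i (lc (M := M) (C := C) (.inl false) v 0 0) (lc (.inl false) v i i) := by
  induction i with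
  | zero => rfl
  | succ i ih =>
    refine (ih (by omega)).trans ⟨lc_notMem _ _ _ _, _, lf_lt v i (by omega), ?_⟩
    show lc (.inl false) v (i + 1) (i + 1) = lc (.inl false) v (i + 1) ((i + 1 : ℕ) : ℤ)
    rw [Nat.cast_succ]

theorem dn_lt (i : ℕ) (hi : i ≤ v.length) :
    DN i (lc (M := M) (C := C) (.inl true) v m ((i : ℤ) - 1)) (lc (.inl true) v m (-1)) := by
  induction i with
  | zero => rfl
  | succ i ih =>
    refine ⟨lc_notMem _ _ _ _, lc (.inl true) v m ((i : ℤ) - 1), fun e => ?_, ih (by omega)⟩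
    rw [lt_ge v m _ (by omega) (by push_cast; omega)]
    rw [show ((i + 1 : ℕ) : ℤ) - 1 - 1 = (i : ℤ) - 1 by push_cast; ring]

theorem dn_load : DN (2 * v.length + 2) (lc (M := M) (C := C) (.inl false) v 0 0)
    (lc (.inr (some M.start, C.start)) v v.length 0) := by
  have h1 := (dn_lf (M := M) (C := C) v v.length le_rfl).trans (n := 1)
    ⟨lc_notMem _ _ _ _, _, lf_end v, rfl⟩
  have h2 := (dn_lt (M := M) (C := C) v v.length v.length le_rfl).trans (n := 1)
    ⟨lc_notMem _ _ _ _, _, lt_end v v.length, rfl⟩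
  have h3 := h1.trans h2
  have : 2 * v.length + 2 = v.length + 1 + (v.length + 1) := by omega
  rw [this]
  exact h3

theorem init_clk : (clk M C).init v = lc (.inl false) v 0 0 := by
  refine Conf.ext rfl ?_ ?_
  · funext i
    by_cases h1 : i = .inl M.i0
    · subst h1
      have h : ((clk M C).init v).tp (.inl M.i0) = wordTape v := init_tp_self _ _
      rw [h, lc_tpM]
    · have h : ((clk M C).init v).tp i = fun _ => none := init_tp_ne _ _ h1
      rw [h]
      by_cases h2 : i = .inr C.i0
      · subst h2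
        rw [lc_tpC]
        funext z
        unfold mt wordTape
        simp [encC]
      · rw [lc_tp_ne _ _ _ _ h1 h2]
  · funext i
    show (0 : ℤ) = (lc _ _ _ _).ps i
    by_cases h : i = .inl M.i0 ∨ i = .inr C.i0
    · rw [lc_ps _ _ _ _ h]
    · rw [lc_ps_ne _ _ _ _ h]

theorem FC_lc : FC C.start (lc (M := M) q v m 0) = C.init (List.replicate m ()) := by
  refine Conf.ext rfl ?_ ?_
  · funext i z
    show decC ((lc q v m 0).tp (.inr i) z) = (C.init (List.replicate m ())).tp i z
    by_cases h : i = C.i0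
    · subst h
      rw [lc_tpC, init_tp_self]
      exact decC_encC _
    · rw [lc_tp_ne _ _ _ _ (fun h => by cases h) (fun h' => h (Sum.inr_injective h')),
        init_tp_ne _ _ h]
      rfl
  · funext i
    show (lc q v m 0).ps (.inr i) = 0
    by_cases h : (.inr i : M.ι ⊕ C.ι) = .inl M.i0 ∨ (.inr i : M.ι ⊕ C.ι) = .inr C.i0
    · rw [lc_ps _ _ _ _ h]
    · rw [lc_ps_ne _ _ _ _ h]

theorem FM_lc (w : List A) (j : ℕ) :
    FM M.start (lc (C := C) q (w.map some ++ List.replicate j none) m 0) = M.init w := by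
  refine Conf.ext rfl ?_ ?_
  · funext i z
    show decM ((lc q (w.map some ++ List.replicate j none) m 0).tp (.inl i) z) =
      (M.init w).tp i z
    by_cases h : i = M.i0
    · subst h
      rw [lc_tpM, init_tp_self]
      exact decM_wordTape _ _ _
    · rw [lc_tp_ne _ _ _ _ (fun h' => h (Sum.inl_injective h')) (fun h => by cases h),
        init_tp_ne _ _ h]
      rfl
  · funext i
    show (lc q (w.map some ++ List.replicate j none) m 0).ps (.inl i) = 0
    by_cases h : (.inl i : M.ι ⊕ C.ι) = .inl M.i0 ∨ (.inl i : M.ι ⊕ C.ι) = .inr C.i0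
    · rw [lc_ps _ _ _ _ h]
    · rw [lc_ps_ne _ _ _ _ h]

theorem clk_acc_gen (s : ℕ) : (clk M C).Acc v s ↔ ∃ n, s = 2 * v.length + 2 + n ∧
    C.Acc (List.replicate v.length ()) n ∧
    ∃ u ≤ n, ∃ c', Rch u (FM M.start (lc (C := C) (.inr (some M.start, C.start)) v v.length 0)) c' ∧
      c'.st ∈ M.acc := by
  have hr := fun n => run_some (M := M) (C := C) n M.start C.start
    (lc (.inr (some M.start, C.start)) v v.length 0) rfl
  have hC : ∀ n, C.Acc (List.replicate v.length ()) n ↔ ∃ c', Rch n (FC C.start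
      (lc (M := M) (.inr (some M.start, C.start)) v v.length 0)) c' ∧ c'.st ∈ C.acc := by
    intro n
    rw [FC_lc]
    rfl
  unfold Acc at hC ⊢
  rw [init_clk]
  constructor
  · rintro ⟨d, hd, ha⟩
    obtain ⟨n, rfl, h1⟩ := (dn_load (M := M) (C := C) v).cut hd ha
    obtain ⟨h2, h3⟩ := (hr n).1 ⟨d, h1, ha⟩
    exact ⟨n, rfl, (hC n).2 h2, h3⟩
  · rintro ⟨n, rfl, h2, h3⟩
    obtain ⟨d, h1, ha⟩ := (hr n).2 ⟨(hC n).1 h2, h3⟩
    exact ⟨d, (dn_load v).rch.trans h1, ha⟩

theorem clk_acc (w : List A) (j s : ℕ) :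
    (clk M C).Acc (w.map some ++ List.replicate j none) s ↔ ∃ n, s = 2 * (w.length + j) + 2 + n ∧
      C.Acc (List.replicate (w.length + j) ()) n ∧ ∃ u ≤ n, M.Acc w u := by
  rw [clk_acc_gen]
  have hl : (w.map some ++ List.replicate j none : List (Option A)).length = w.length + j := by
    simp
  rw [hl]
  simp only [FM_lc]
  rfl

end GM

/-- **Clocked simulation.** -/
theorem exists_clk {A : Type} (M : Machine A) (C : Machine Unit) :
    ∃ K : Machine (Option A),
      (∀ w j s, AcceptsIn K (w.map some ++ List.replicate j none) s ↔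
        ∃ n, s = 2 * (w.length + j) + 2 + n ∧
          AcceptsIn C (List.replicate (w.length + j) ()) n ∧ ∃ u ≤ n, AcceptsIn M w u) ∧
      ∀ v s, AcceptsIn K v s → ∃ n, s = 2 * v.length + 2 + n ∧
        AcceptsIn C (List.replicate v.length ()) n := by
  obtain ⟨K, hK⟩ := GM.exists_machine (GM.clk (GM.ofMachine M) (GM.ofMachine C))
  refine ⟨K, fun w j s => ?_, fun v s h => ?_⟩
  · rw [hK, GM.clk_acc]
    simp only [GM.acc_ofMachine]
  · rw [hK, GM.clk_acc_gen] at h
    obtain ⟨n, rfl, h1, -⟩ := h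
    exact ⟨n, rfl, GM.acc_ofMachine.1 h1⟩

end Pool.Agent.H59.Clock
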