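import Pool.Agent.H59.Clock.Defs
import Pool.Agent.H59.Clock.Sim

/-!
Closure implies clockability; the sublinear case; lifting.
-/

namespace Pool.Agent.H59.Clock

open Pool.Agent.Lead.NTM

variable {A : Type} {t : ℕ → ℕ}

/-- Unions. -/
theorem union_mem {L L' : Set (List A)} (h : L ∈ NTIMEPol A t) (h' : L' ∈ NTIMEPol A t) :
    L ∪ L' ∈ NTIMEPol A t := by
  rw [mem_NTIMEPol] at h h' ⊢
  obtain ⟨M, ⟨p, hp⟩, hM⟩ := h
  obtain ⟨M', ⟨p', hp'⟩, hM'⟩ := h'
  obtain ⟨U, hU⟩ := exists_union M M'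
  have hacc : ∀ w, Accepts U w ↔ Accepts M w ∨ Accepts M' w := by
    intro w
    constructor
    · rintro ⟨s, hs⟩
      obtain ⟨u, -, h | h⟩ := (hU w s).1 hs
      · exact Or.inl ⟨u, h⟩
      · exact Or.inr ⟨u, h⟩
    · rintro (⟨u, h⟩ | ⟨u, h⟩)
      · exact ⟨u + 1, (hU w _).2 ⟨u, rfl, Or.inl h⟩⟩
      · exact ⟨u + 1, (hU w _).2 ⟨u, rfl, Or.inr h⟩⟩
  refine ⟨U, ⟨p + p' + 1, fun w hw => ?_⟩, fun w => ?_⟩
  · simp only [Polynomial.eval_add, Polynomial.eval_one]
    rcases (hacc w).1 hw with h | h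
    · obtain ⟨s, hs, ha⟩ := hp w h
      exact ⟨s + 1, by omega, (hU w _).2 ⟨s, rfl, Or.inl ha⟩⟩
    · obtain ⟨s, hs, ha⟩ := hp' w h
      exact ⟨s + 1, by omega, (hU w _).2 ⟨s, rfl, Or.inr ha⟩⟩
  · rw [hacc, ← hM, ← hM']
    rfl

/-- **Closure under complementation implies clockability.** -/
theorem clockable_of_closed (h : NTIMEPol A t = coNTIMEPol A t) : Clockable A t := by
  intro M hM
  have h1 : {w | Accepts M w} ∈ NTIMEPol A t := mem_NTIMEPol.2 ⟨M, hM, fun w => Iff.rfl⟩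
  have h2 := closed_iff.1 h _ h1
  obtain ⟨M', ⟨p', hp'⟩, hM'⟩ := mem_NTIMEPol.1 h2
  obtain ⟨p, hp⟩ := hM
  obtain ⟨N, hN⟩ := exists_union M M'
  have hM'' : ∀ w, Accepts M' w ↔ ¬ Accepts M w := fun w => (hM' w).symm
  refine ⟨N, ⟨p + p' + 1, fun w _ => ?_⟩, fun w => ?_, fun w s hw hs => ?_⟩
  · simp only [Polynomial.eval_add, Polynomial.eval_one]
    by_cases h : Accepts M w
    · obtain ⟨s, hs, ha⟩ := hp w h
      exact ⟨s + 1, by omega, (hN w _).2 ⟨s, rfl, Or.inl ha⟩⟩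
    · obtain ⟨s, hs, ha⟩ := hp' w ((hM'' w).2 h)
      exact ⟨s + 1, by omega, (hN w _).2 ⟨s, rfl, Or.inr ha⟩⟩
  · by_cases h : Accepts M w
    · obtain ⟨s, ha⟩ := h
      exact ⟨s + 1, (hN w _).2 ⟨s, rfl, Or.inl ha⟩⟩
    · obtain ⟨s, ha⟩ := (hM'' w).2 h
      exact ⟨s + 1, (hN w _).2 ⟨s, rfl, Or.inr ha⟩⟩
  · obtain ⟨u, rfl, h | h⟩ := (hN w s).1 hs
    · exact ⟨u, by omega, h⟩
    · exact absurd hw ((hM'' w).1 ⟨u, h⟩)

/-- If `t` is infinitely often smaller than every power `n ^ ε` and clockable, then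
`NTIME(Pol t)` consists of prefix-determined languages. -/
theorem prefixDetermined_of_clockable (h : ∀ k : ℕ, ∃ᶠ n in Filter.atTop, t n ^ k < n)
    (hc : Clockable A t) {L : Set (List A)} (hL : L ∈ NTIMEPol A t) : PrefixDetermined L := by
  obtain ⟨M, hM, hMw⟩ := mem_NTIMEPol.1 hL
  obtain ⟨N, ⟨q, hq⟩, hN, hc⟩ := hc M hM
  obtain ⟨n, hn⟩ := (frequently_eval_lt h q).exists
  have key : ∀ w : List A, n ≤ w.length → (w ∈ L ↔ w.take n ∈ L) := by
    intro w hw
    have hlen : (w.take n).length = n := by simp [hw]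
    obtain ⟨s, hs, ha⟩ := hq (w.take n) (hN _)
    rw [hlen] at hs
    have htk : ∀ s', s' ≤ s → (w.take n).take s' = w.take s' := by
      intro s' hs'
      rw [List.take_take, min_eq_left (by omega)]
    have ha' : AcceptsIn N w s := acceptsIn_congr (htk s le_rfl) ha
    rw [hMw, hMw]
    constructor
    · intro h1
      obtain ⟨s', hs', h2⟩ := hc w s h1 ha'
      exact ⟨s', acceptsIn_congr (htk s' hs').symm h2⟩
    · intro h1
      obtain ⟨s', hs', h2⟩ := hc _ s h1 ha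
      exact ⟨s', acceptsIn_congr (htk s' hs') h2⟩
  refine ⟨n, fun w w' hww => ?_⟩
  by_cases hw : n ≤ w.length
  · have hw' : n ≤ w'.length := by
      have := congrArg List.length hww
      simp at this
      omega
    rw [key w hw, key w' hw', hww]
  · have hw' : w'.length < n := by
      have := congrArg List.length hww
      simp at this
      omega
    rw [List.take_of_length_le (by omega), List.take_of_length_le (by omega)] at hww
    rw [hww]

/-- The sublinear case. -/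
theorem closed_iff_clockable_of_sub [Finite A] (h : ∀ k : ℕ, ∃ᶠ n in Filter.atTop, t n ^ k < n) :
    NTIMEPol A t = coNTIMEPol A t ↔ Clockable A t :=
  ⟨clockable_of_closed, fun hc => closed_iff.2 fun _ hL =>
    prefixDetermined_mem t (prefixDetermined_compl (prefixDetermined_of_clockable h hc hL))⟩

/-- **Lifting.** `G` is honest with clock machine `C`. -/
theorem closed_of_clockable {G τ : ℕ → ℕ} {C : Machine Unit} {pG r : Polynomial ℕ}
    (hC : ∀ n s, AcceptsIn C (List.replicate n ()) s ↔ s = τ n)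
    (hτ : ∀ n, G n ≤ τ n ∧ τ n ≤ pG.eval (G n)) (hid : ∀ n, n ≤ G n)
    (hr : ∀ n, G (n + 1) ≤ r.eval (G n))
    (hcl : NTIMEPol (Option A) G = coNTIMEPol (Option A) G) (hle : ∀ n, G n ≤ t n)
    (hc : Clockable A t) : NTIMEPol A t = coNTIMEPol A t := by
  rw [closed_iff] at hcl ⊢
  intro L hL
  obtain ⟨M, hM, hMw⟩ := mem_NTIMEPol.1 hL
  obtain ⟨N, ⟨q, hq⟩, hN, hcl'⟩ := hc M hM
  -- clocked simulations
  obtain ⟨KM, hKM, hKM'⟩ := exists_clk M C
  obtain ⟨KN, hKN, hKN'⟩ := exists_clk N C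
  have hobey : ∀ K : Machine (Option A), (∀ v s, AcceptsIn K v s → ∃ n, s = 2 * v.length + 2 + n ∧
      AcceptsIn C (List.replicate v.length ()) n) → Obeys K G := by
    intro K hK
    refine ⟨2 * Polynomial.X + 2 + pG, fun v hv => ?_⟩
    obtain ⟨s, hs⟩ := hv
    refine ⟨s, ?_, hs⟩
    obtain ⟨n, rfl, hn⟩ := hK v s hs
    rw [hC] at hn
    subst hn
    simp only [Polynomial.eval_add, Polynomial.eval_mul, Polynomial.eval_X,
      Polynomial.eval_ofNat]
    have h1 := hid v.length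
    have h2 := (hτ v.length).2
    omega
  have hX : {v | Accepts KM v} ∈ NTIMEPol (Option A) G :=
    mem_NTIMEPol.2 ⟨KM, hobey KM hKM', fun _ => Iff.rfl⟩
  have hY : {v | Accepts KN v} ∈ NTIMEPol (Option A) G :=
    mem_NTIMEPol.2 ⟨KN, hobey KN hKN', fun _ => Iff.rfl⟩
  have hI := hcl _ (union_mem (hcl _ hY) hX)
  obtain ⟨MI, ⟨pI, hpI⟩, hMI⟩ := mem_NTIMEPol.1 hI
  have hMI' : ∀ v, Accepts MI v ↔ Accepts KN v ∧ ¬ Accepts KM v := by
    intro v
    rw [← hMI]
    simp only [Set.mem_compl_iff, Set.mem_union, Set.mem_setOf_eq]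
    tauto
  have hKM2 : ∀ w j, Accepts KM (w.map some ++ List.replicate j none) ↔
      ∃ u ≤ τ (w.length + j), AcceptsIn M w u := by
    intro w j
    constructor
    · rintro ⟨s, hs⟩
      obtain ⟨n, -, hn, u, hu, ha⟩ := (hKM w j s).1 hs
      rw [hC] at hn
      subst hn
      exact ⟨u, hu, ha⟩
    · rintro ⟨u, hu, ha⟩
      exact ⟨_, (hKM w j _).2 ⟨_, rfl, (hC _ _).2 rfl, u, hu, ha⟩⟩
  have hKN2 : ∀ w j, Accepts KN (w.map some ++ List.replicate j none) ↔
      ∃ u ≤ τ (w.length + j), AcceptsIn N w u := by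
    intro w j
    constructor
    · rintro ⟨s, hs⟩
      obtain ⟨n, -, hn, u, hu, ha⟩ := (hKN w j s).1 hs
      rw [hC] at hn
      subst hn
      exact ⟨u, hu, ha⟩
    · rintro ⟨u, hu, ha⟩
      exact ⟨_, (hKN w j _).2 ⟨_, rfl, (hC _ _).2 rfl, u, hu, ha⟩⟩
  obtain ⟨R, hR⟩ := exists_pad MI
  set B : Polynomial ℕ := Polynomial.X + r.comp q with hB
  -- the machine `R` accepts the words outside `L` in time
  have key : ∀ w, w ∉ L → ∃ s ≤ (2 * B + 3 + pI.comp B).eval (t w.length), AcceptsIn R w s := by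
    intro w hw
    classical
    rw [hMw] at hw
    obtain ⟨s, hs, ha⟩ := hq w (hN w)
    have hex : ∃ m, w.length ≤ m ∧ s ≤ τ m :=
      ⟨max w.length s, le_max_left _ _,
        (le_max_right _ _).trans ((hid _).trans (hτ _).1)⟩
    set m := Nat.find hex with hm
    obtain ⟨hm1, hm2⟩ := Nat.find_spec hex
    rw [← hm] at hm1 hm2
    obtain ⟨j, hj⟩ : ∃ j, m = w.length + j := ⟨m - w.length, by omega⟩
    have hGm : G m ≤ B.eval (t w.length) := by
      rw [hB, Polynomial.eval_add, Polynomial.eval_X, Polynomial.eval_comp]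
      rcases Nat.eq_zero_or_pos j with h0 | h0
      · subst h0
        have h1 := hle w.length
        rw [hj, Nat.add_zero]
        omega
      · obtain ⟨i, rfl⟩ : ∃ i, j = i + 1 := ⟨j - 1, by omega⟩
        have h1 : ¬ (w.length ≤ w.length + i ∧ s ≤ τ (w.length + i)) :=
          Nat.find_min hex (by omega)
        have h2 : τ (w.length + i) < s := by
          by_contra h
          exact h1 ⟨by omega, by omega⟩
        have h3 := hr (w.length + i)
        have h4 := (hτ (w.length + i)).1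
        have h5 := eval_mono r (show G (w.length + i) ≤ q.eval (t w.length) by omega)
        have h6 : m = w.length + i + 1 := by omega
        rw [h6]
        omega
    have hv : Accepts MI (w.map some ++ List.replicate j none) := by
      rw [hMI', hKN2, hKM2]
      refine ⟨⟨s, hj ▸ hm2, ha⟩, ?_⟩
      rintro ⟨u, -, hu⟩
      exact hw ⟨u, hu⟩
    obtain ⟨u, hu, hua⟩ := hpI _ hv
    refine ⟨_, ?_, (hR w _).2 ⟨j, u, rfl, hua⟩⟩
    have hlen : (w.map some ++ List.replicate j none : List (Option A)).length = m := by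
      simp [hj]
    rw [hlen] at hu
    have h7 := eval_mono pI hGm
    have h8 := hid m
    simp only [Polynomial.eval_add, Polynomial.eval_mul, Polynomial.eval_comp,
      Polynomial.eval_ofNat] at h7 ⊢
    omega
  refine mem_NTIMEPol.2 ⟨R, ⟨2 * B + 3 + pI.comp B, fun w hw => ?_⟩, fun w => ?_⟩
  all_goals
    have hsound : Accepts R w → w ∉ L := by
      rintro ⟨s, hs⟩ hwL
      obtain ⟨j, u, -, hu⟩ := (hR w s).1 hs
      have h1 := (hMI' _).1 ⟨u, hu⟩
      rw [hKN2, hKM2] at h1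
      obtain ⟨⟨s', hs', ha⟩, h2⟩ := h1
      rw [hMw] at hwL
      obtain ⟨s'', hs'', h3⟩ := hcl' w s' hwL ha
      exact h2 ⟨s'', hs''.trans hs', h3⟩
  · exact key w (hsound hw)
  · constructor
    · intro hw
      obtain ⟨s, -, ha⟩ := key w hw
      exact ⟨s, ha⟩
    · exact hsound

end Pool.Agent.H59.Clock
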