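import Pool.Agent.H59.Clock.Defs
import Pool.Agent.H27.LD.Win

/-!
The index set of the clockable time bounds is `Π⁰₃`.
-/

namespace Pool.Agent.H59.Clock

open Function Pool.Agent.Lead.NTM Encodable Denumerable
open Pool.Agent.H83.NT
open Nat.Partrec (Code)

attribute [local irreducible] T words accB hh F gs ev bad win rq V0 V1 mkp
  FF kw elig frst DD stop selB sel mke eM eC eD Pl ex AL accv okw lc

/-- Acceptance within `s` steps. -/
noncomputable def accw (i : ℕ) (u : List ℕ) (s : ℕ) : Bool :=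
  decide (∃ s' < s + 1, AL i u s' = true)

theorem accw_iff {i : ℕ} {u : List ℕ} {s : ℕ} :
    accw i u s = true ↔ ∃ s' ≤ s, AL i u s' = true := by
  unfold accw
  simp only [decide_eq_true_eq, Nat.lt_succ_iff]

theorem computable_accw : Computable fun z : (ℕ × List ℕ) × ℕ => accw z.1.1 z.1.2 z.2 := by
  have h1' := computable_AL.comp (((Computable.fst.comp (Computable.fst.comp Computable.fst) :
    Computable fun z : ((ℕ × List ℕ) × ℕ) × ℕ => z.1.1.1).pair
      (Computable.snd.comp (Computable.fst.comp Computable.fst))).pair Computable.snd)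
  have h1 : Computable₂ fun (z : (ℕ × List ℕ) × ℕ) (s : ℕ) => AL z.1.1 z.1.2 s := h1'
  exact computable_bex h1 (Computable.succ.comp Computable.snd)

attribute [local irreducible] accw

/-- Second alternative: `a = (i, d)`, `b = (i', d')`, `y = (u, ((s, s'), k))`. -/
noncomputable def C1 (m x a b y : ℕ) : Bool :=
  !(okw m (lc y.unpair.1)) || (!((ex (y.unpair.2.unpair.2, x) (lc y.unpair.1).length).isSome) ||
    (accv b.unpair (lc y.unpair.1) ((ex (y.unpair.2.unpair.2, x)
        (lc y.unpair.1).length).getD 0) &&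
      (!(AL b.unpair.1 (lc y.unpair.1) y.unpair.2.unpair.1.unpair.1) ||
        (!(AL a.unpair.1 (lc y.unpair.1) y.unpair.2.unpair.1.unpair.2) ||
          accw a.unpair.1 (lc y.unpair.1) y.unpair.2.unpair.1.unpair.1))))

theorem computable_C1 (m : ℕ) : Computable fun q : (ℕ × ℕ) × (ℕ × ℕ) =>
    C1 m q.1.1 q.1.2 q.2.1 q.2.2 := by
  have hx : Computable fun q : (ℕ × ℕ) × (ℕ × ℕ) => q.1.1 := Computable.fst.comp Computable.fst
  have ha : Computable fun q : (ℕ × ℕ) × (ℕ × ℕ) => q.1.2 := Computable.snd.comp Computable.fst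
  have hb : Computable fun q : (ℕ × ℕ) × (ℕ × ℕ) => q.2.1 := Computable.fst.comp Computable.snd
  have hy : Computable fun q : (ℕ × ℕ) × (ℕ × ℕ) => q.2.2 := Computable.snd.comp Computable.snd
  have hu : Computable fun q : (ℕ × ℕ) × (ℕ × ℕ) => lc q.2.2.unpair.1 :=
    computable_lc.comp (cu1 hy)
  have hl : Computable fun q : (ℕ × ℕ) × (ℕ × ℕ) => (lc q.2.2.unpair.1).length :=
    Primrec.list_length.to_comp.comp hu
  have hkx : Computable fun q : (ℕ × ℕ) × (ℕ × ℕ) => (q.2.2.unpair.2.unpair.2, q.1.1) :=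
    (cu2 (cu2 hy)).pair hx
  have h1 := computable_exS.comp hkx hl
  have h2 := computable_exV.comp hkx hl
  have h3 := computable_AL.comp (((cu1 hb).pair hu).pair (cu1 (cu1 (cu2 hy))))
  have h3' := computable_AL.comp (((cu1 ha).pair hu).pair (cu2 (cu1 (cu2 hy))))
  have h4 := computable_accw.comp (((cu1 ha).pair hu).pair (cu1 (cu1 (cu2 hy))))
  have h6 := computable_accv.comp ((Computable.unpair.comp hb).pair (hu.pair h2))
  have h5 := (computable_okw m).comp hu
  exact computable_or.comp (computable_not.comp h5) (computable_or.comp (computable_not.comp h1)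
    (computable_and.comp h6 (computable_or.comp (computable_not.comp h3)
      (computable_or.comp (computable_not.comp h3') h4))))

theorem C1_iff {m x i d i' d' : ℕ} {u : List ℕ} {s s' k : ℕ} {t : ℕ → ℕ}
    (ht : ∀ n, t n ∈ (ofNat Code x).eval n) :
    C1 m x (Nat.pair i d) (Nat.pair i' d')
        (Nat.pair (encode u) (Nat.pair (Nat.pair s s') k)) = true ↔
      ((∀ a ∈ u, a < m) → ex (k, x) u.length = some (t u.length) →
        accv (i', d') u (t u.length) = true ∧
        (AL i' u s = true → AL i u s' = true → accw i u s = true)) := by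
  unfold C1
  simp only [Nat.unpair_pair, lc_encode, Bool.and_eq_true, Bool.or_eq_true,
    Bool.not_eq_true']
  rw [← Bool.not_eq_true, okw_iff, ← Bool.not_eq_true, ← Bool.not_eq_true (AL i' u s),
    ← Bool.not_eq_true (AL i u s')]
  constructor
  · rintro h h1 h2
    rcases h with h | h | h
    · exact absurd h1 h
    · rw [h2] at h
      exact absurd rfl h
    · rw [h2] at h
      exact ⟨h.1, fun h3 h4 => (h.2.resolve_left (not_not.2 h3)).resolve_left (not_not.2 h4)⟩
  · intro h
    by_cases h1 : ∀ a ∈ u, a < m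
    · right
      by_cases h2 : (ex (k, x) u.length).isSome = true
      · right
        obtain ⟨v, hv⟩ := Option.isSome_iff_exists.1 h2
        have h5 := ex_some hv (ht _)
        subst h5
        obtain ⟨h3, h4⟩ := h h1 hv
        rw [hv]
        refine ⟨h3, ?_⟩
        by_cases h6 : AL i' u s = true
        · by_cases h7 : AL i u s' = true
          · exact Or.inr (Or.inr (h4 h6 h7))
          · exact Or.inr (Or.inl h7)
        · exact Or.inl h6
      · exact Or.inl h2
    · exact Or.inl h1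

/-- The matrix. -/
noncomputable def RC (m x a b y : ℕ) : Bool :=
  bif decide (b.unpair.1 = 0) then R0 m x a b.unpair.2 else C1 m x a b.unpair.2 y

theorem computable_RC (m : ℕ) : Computable fun q : (ℕ × ℕ) × (ℕ × ℕ) =>
    RC m q.1.1 q.1.2 q.2.1 q.2.2 := by
  have hx : Computable fun q : (ℕ × ℕ) × (ℕ × ℕ) => q.1.1 := Computable.fst.comp Computable.fst
  have ha : Computable fun q : (ℕ × ℕ) × (ℕ × ℕ) => q.1.2 := Computable.snd.comp Computable.fst
  have hb : Computable fun q : (ℕ × ℕ) × (ℕ × ℕ) => q.2.1 := Computable.fst.comp Computable.snd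
  have hy : Computable fun q : (ℕ × ℕ) × (ℕ × ℕ) => q.2.2 := Computable.snd.comp Computable.snd
  have h1 := (computable_R0 m).comp (hx.pair (ha.pair (cu2 hb)))
  have h2 := (computable_C1 m).comp ((hx.pair ha).pair ((cu2 hb).pair hy))
  exact Computable.cond (computable_eqn.comp (cu1 hb) (Computable.const 0)) h1 h2

theorem RC_zero (m x a b y : ℕ) : RC m x a (Nat.pair 0 b) y = R0 m x a b := by
  unfold RC
  simp

theorem RC_succ (m x a j b y : ℕ) : RC m x a (Nat.pair (j + 1) b) y = C1 m x a b y := by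
  unfold RC
  simp

/-- Machines and codes. -/
theorem exists_code {A : Type} [Finite A] {m : ℕ} (E : Coding A m) (M : Machine A) :
    ∃ i, ∀ w s, AL i (w.map E.e) s = true ↔ AcceptsIn M w s := by
  obtain ⟨D, hD⟩ := exists_accL M E.e E.inj
  refine ⟨encode D, fun w s => ?_⟩
  rw [AL_iff, ofNat_encode]
  exact (hD w s).symm

theorem exists_mach {A : Type} {m : ℕ} (E : Coding A m) (i : ℕ) :
    ∃ M : Machine A, ∀ w s, AL i (w.map E.e) s = true ↔ AcceptsIn M w s := by
  obtain ⟨M, hM⟩ := exists_machine_of_desc E.inj E.lt E.surj (ofNat Desc i)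
  exact ⟨M, fun w s => by rw [AL_iff]; exact (hM w s).symm⟩

theorem accv_iff' {i d : ℕ} {u : List ℕ} {v : ℕ} : accv (i, d) u v = true ↔
    ∃ s ≤ Pl d v, AL i u s = true := by
  rw [accv_iff]
  simp only [AL_iff]

theorem clockable_iff_RC {A : Type} [Finite A] {m : ℕ} (E : Coding A m) {x : ℕ} {t : ℕ → ℕ}
    (ht : ∀ n, t n ∈ (ofNat Code x).eval n) :
    Clockable A t ↔ ∀ a, ∃ b, ∀ y, RC m x a b y = true := by
  constructor
  · intro h a
    obtain ⟨i, d, rfl⟩ : ∃ i d, a = Nat.pair i d := ⟨a.unpair.1, a.unpair.2, by simp⟩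
    by_cases hc : ∃ w : List A, ∃ s, AL i (w.map E.e) s = true ∧
        accv (i, d) (w.map E.e) (t w.length) = false
    · obtain ⟨w, s, h1, h2⟩ := hc
      obtain ⟨k, hk⟩ := exists_ex (ht w.length)
      refine ⟨Nat.pair 0 (Nat.pair (encode (w.map E.e)) (Nat.pair s k)), fun y => ?_⟩
      rw [RC_zero, R0_iff ht, List.length_map]
      exact ⟨by simpa using fun a _ => E.lt a, h1, hk, h2⟩
    · push Not at hc
      obtain ⟨M, hM⟩ := exists_mach E i
      have hpl : ∀ v, ((Polynomial.X + Polynomial.C d) ^ d : Polynomial ℕ).eval v = Pl d v := by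
        intro v
        unfold Pl
        simp
      have hob : Obeys M t := by
        refine ⟨(Polynomial.X + Polynomial.C d) ^ d, ?_⟩
        rintro w ⟨s, hs⟩
        have h1 : accv (i, d) (w.map E.e) (t w.length) = true := by
          simpa using hc w s ((hM w s).2 hs)
        rw [accv_iff'] at h1
        obtain ⟨s', h2, h3⟩ := h1
        exact ⟨s', by rw [hpl]; exact h2, (hM w s').1 h3⟩
      obtain ⟨N, ⟨p, hp⟩, htot, hclk⟩ := h M hob
      obtain ⟨i', hi'⟩ := exists_code E N
      obtain ⟨d', hd'⟩ := exists_Pl p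
      refine ⟨Nat.pair 1 (Nat.pair i' d'), fun y => ?_⟩
      obtain ⟨u, s, s', k, rfl⟩ : ∃ u s s' k, y =
          Nat.pair (encode (u : List ℕ)) (Nat.pair (Nat.pair s s') k) :=
        ⟨ofNat (List ℕ) y.unpair.1, y.unpair.2.unpair.1.unpair.1, y.unpair.2.unpair.1.unpair.2,
          y.unpair.2.unpair.2, by simp⟩
      rw [RC_succ m x _ 0, C1_iff ht]
      intro hu hk
      obtain ⟨w, hw, rfl⟩ := E.exists_word (n := u.length) (mem_words.2 ⟨rfl, hu⟩)
      rw [List.length_map]
      constructor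
      · rw [accv_iff']
        obtain ⟨r, hr, ha⟩ := hp w (htot w)
        exact ⟨r, hr.trans (hd' _), (hi' w r).2 ha⟩
      · intro h1 h2
        rw [accw_iff]
        obtain ⟨r, hr, ha⟩ := hclk w s ⟨s', (hM w s').1 h2⟩ ((hi' w s).1 h1)
        exact ⟨r, hr, (hM w r).2 ha⟩
  · rintro h M ⟨p, hp⟩
    obtain ⟨i, hi⟩ := exists_code E M
    obtain ⟨d, hd⟩ := exists_Pl p
    obtain ⟨b, hb⟩ := h (Nat.pair i d)
    obtain ⟨j, b, rfl⟩ : ∃ j b', b = Nat.pair j b' := ⟨b.unpair.1, b.unpair.2, by simp⟩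
    cases j with
    | zero =>
      exfalso
      have h3 := hb 0
      obtain ⟨u, s, k, rfl⟩ : ∃ u s k, b = Nat.pair (encode (u : List ℕ)) (Nat.pair s k) :=
        ⟨ofNat (List ℕ) b.unpair.1, b.unpair.2.unpair.1, b.unpair.2.unpair.2, by simp⟩
      rw [RC_zero, R0_iff ht] at h3
      obtain ⟨h4, h5, h6, h7⟩ := h3
      obtain ⟨w, hw, rfl⟩ := E.exists_word (n := u.length) (mem_words.2 ⟨rfl, h4⟩)
      rw [List.length_map] at h7
      obtain ⟨s', h8, h9⟩ := hp w ⟨s, (hi w s).1 h5⟩
      have h10 : accv (i, d) (w.map E.e) (t w.length) = true :=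
        accv_iff'.2 ⟨s', h8.trans (hd _), (hi w s').2 h9⟩
      rw [h10] at h7
      exact absurd h7 (by simp)
    | succ j =>
      obtain ⟨i', d', rfl⟩ : ∃ i d, b = Nat.pair i d := ⟨b.unpair.1, b.unpair.2, by simp⟩
      obtain ⟨N, hN⟩ := exists_mach E i'
      have h3 : ∀ (w : List A) (s s' : ℕ), accv (i', d') (w.map E.e) (t w.length) = true ∧
          (AL i' (w.map E.e) s = true → AL i (w.map E.e) s' = true →
            accw i (w.map E.e) s = true) := by
        intro w s s'
        obtain ⟨k, hk⟩ := exists_ex (ht w.length)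
        have h4 := hb (Nat.pair (encode (w.map E.e)) (Nat.pair (Nat.pair s s') k))
        rw [RC_succ, C1_iff ht, List.length_map] at h4
        exact h4 (by simpa using fun a _ => E.lt a) hk
      have hpl : ∀ v, ((Polynomial.X + Polynomial.C d') ^ d' : Polynomial ℕ).eval v =
          Pl d' v := by
        intro v
        unfold Pl
        simp
      have hacc : ∀ w, ∃ s ≤ Pl d' (t w.length), AcceptsIn N w s := by
        intro w
        obtain ⟨s, h4, h5⟩ := accv_iff'.1 (h3 w 0 0).1
        exact ⟨s, h4, (hN w s).1 h5⟩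
      refine ⟨N, ⟨(Polynomial.X + Polynomial.C d') ^ d', fun w _ => ?_⟩, fun w => ?_, ?_⟩
      · rw [hpl]
        exact hacc w
      · obtain ⟨s, -, ha⟩ := hacc w
        exact ⟨s, ha⟩
      · rintro w s ⟨s', hs'⟩ hs
        have h4 := (h3 w s s').2 ((hN w s).2 hs) ((hi w s').2 hs')
        rw [accw_iff] at h4
        obtain ⟨r, hr, ha⟩ := h4
        exact ⟨r, hr, (hi w r).1 ha⟩

theorem isPi3_RC (m : ℕ) : IsPi3 {x | ∀ a, ∃ b, ∀ y, RC m x a b y = true} :=
  ⟨RC m, computable_RC m, fun _ => Iff.rfl⟩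

/-- The clockable time bounds in a window. -/
theorem isPi3_window_clockable {G h : ℕ → ℕ} (hG : Computable G) (hh : Computable h) (A : Type)
    [Finite A] : IsPi3 (IndexSet fun t => (Monotone t ∧ ∀ n, G n ≤ t n ∧ t n ≤ G n ^ h n) ∧
      Clockable A t) := by
  obtain ⟨m, ⟨E⟩⟩ := exists_coding A
  have h1 := (Pool.Agent.H27.LD.isPi3_window hG hh).inter (isPi3_RC m)
  have heq : (IndexSet fun t => (Monotone t ∧ ∀ n, G n ≤ t n ∧ t n ≤ G n ^ h n) ∧
      Clockable A t) =
      (IndexSet fun t => Monotone t ∧ ∀ n, G n ≤ t n ∧ t n ≤ G n ^ h n) ∩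
        {x | ∀ a, ∃ b, ∀ y, RC m x a b y = true} := by
    ext x
    constructor
    · rintro ⟨t, h1, h2, h3⟩
      exact ⟨⟨t, h1, h2⟩, (clockable_iff_RC E h1).1 h3⟩
    · rintro ⟨⟨t, h1, h2⟩, h3⟩
      exact ⟨t, h1, h2, (clockable_iff_RC E h1).2 h3⟩
  rw [heq]
  exact h1

end Pool.Agent.H59.Clock
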