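import Pool.Agent.H59.Clock.PosC
import Pool.Agent.H59.Clock.UpC

/-!
Clockability is `Π⁰₃`-complete in every window above an honest time bound.
-/

namespace Pool.Agent.H59.Clock

open Pool.Agent.Lead.NTM Pool.Agent.H71.NT Pool.Agent.H27.LD
open Pool.Agent.H83.NT (P3 IsPi3 IndexSet exists_codes)

/-- The computable families. -/
theorem core_clock {G h : ℕ → ℕ} (hGc : Computable G) (hGm : Monotone G) (hid : ∀ n, n ≤ G n)
    (hGh : Honest G) (hh : Slowly h) {S : Set ℕ} (hS : IsPi3 S) :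
    ∃ f : ℕ → ℕ, Computable f ∧ ∀ x, ∃ t : ℕ → ℕ,
      (∀ n, t n ∈ (Denumerable.ofNat Nat.Partrec.Code (f x)).eval n) ∧
      Monotone t ∧ (∀ n, G n ≤ t n ∧ t n ≤ G n ^ h n) ∧ (∃ᶠ n in Filter.atTop, t n = G n) ∧
      (x ∈ S → ∀ (A : Type) [Finite A], Clockable A t ∧ NTIMEPol A t = NTIMEPol A G) ∧
      (x ∉ S → ∀ (A : Type) [Finite A] [Nonempty A], ¬ Clockable A t) := by
  obtain ⟨R, hR, hRS⟩ := hS
  let W : P3 := ⟨R, hR⟩
  have hW : W.set = S := by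
    ext x
    exact (hRS x).symm
  obtain ⟨Z, hZG, hZh, hZW⟩ := exists_dat hGc hGm hid hGh hh.comp hh.mono hh.unbounded hh.one_le W
  obtain ⟨f, hf, hft⟩ := exists_codes (computable_tX Z)
  refine ⟨f, hf, fun x => ⟨Z.tX x, hft x, Z.tX_mono x, fun n => ⟨?_, ?_⟩, ?_, fun hx A _ => ?_,
    fun hx A _ _ => ?_⟩⟩
  · rw [← hZG]
    exact Z.G_le_tX x n
  · rw [← hZG, ← hZh]
    exact Z.tX_window x n
  · rw [← hZG]
    exact Z.frequently_eq x
  · rw [← hW, ← hZW] at hx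
    refine ⟨clockable_tX Z (hZG ▸ hGh) hx A, ?_⟩
    rw [← hZG]
    exact Z.pos_case hx A
  · rw [← hW, ← hZW] at hx
    exact not_clockable Z hx A

/-- `S` is `Π⁰₃`-complete under many-one reductions. -/
def Pi3Complete (S : Set ℕ) : Prop :=
  IsPi3 S ∧ ∀ S' : Set ℕ, IsPi3 S' → ∃ f : ℕ → ℕ, Computable f ∧ ∀ x, x ∈ S' ↔ f x ∈ S

/-- **Clockability in a window is `Π⁰₃`-complete.** -/
theorem pi3Complete_clockable {G h : ℕ → ℕ} (hGc : Computable G) (hGm : Monotone G)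
    (hid : ∀ n, n ≤ G n) (hGh : Honest G) (hh : Slowly h) (A : Type) [Finite A] [Nonempty A] :
    Pi3Complete (IndexSet fun t => (Monotone t ∧ ∀ n, G n ≤ t n ∧ t n ≤ G n ^ h n) ∧
      Clockable A t) := by
  refine ⟨isPi3_window_clockable hGc hh.comp A, fun S hS => ?_⟩
  obtain ⟨f, hf, hfx⟩ := core_clock hGc hGm hid hGh hh hS
  refine ⟨f, hf, fun x => ?_⟩
  obtain ⟨t, ht, hm, hw, -, h1, h2⟩ := hfx x
  constructor
  · intro hx
    exact ⟨t, ht, ⟨hm, hw⟩, (h1 hx A).1⟩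
  · rintro ⟨t', ht', -, hc⟩
    by_contra hx
    have h5 : t' = t := funext fun n => Part.mem_unique (ht' n) (ht n)
    subst h5
    exact h2 hx A hc

end Pool.Agent.H59.Clock
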