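import Pool.Agent.Lead.NTM

/-!
Machines obeying a time bound, total clocks, clockable time bounds.
-/

namespace Pool.Agent.H59.Clock

open Pool.Agent.Lead.NTM

/-- The machine `M` obeys the time bound `t`: for some polynomial `p` every word `w` accepted by
`M` has an accepting computation of at most `p(t(|w|))` steps. -/
def Obeys {A : Type} (M : Machine A) (t : ℕ → ℕ) : Prop :=
  ∃ p : Polynomial ℕ, ∀ w, Accepts M w → ∃ s ≤ p.eval (t w.length), AcceptsIn M w s

/-- The machine `N` is a total clock for the machine `M`: `N` accepts every word, and if `M`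
accepts `w` and `N` has an accepting computation of `s` steps on `w`, then `M` accepts `w` within
`s` steps. -/
def IsClock {A : Type} (N M : Machine A) : Prop :=
  (∀ w, Accepts N w) ∧ ∀ w s, Accepts M w → AcceptsIn N w s → ∃ s' ≤ s, AcceptsIn M w s'

/-- The time bound `t` is clockable over the alphabet `A`: every machine obeying `t` has a total
clock obeying `t`. -/
def Clockable (A : Type) (t : ℕ → ℕ) : Prop :=
  ∀ M : Machine A, Obeys M t → ∃ N : Machine A, Obeys N t ∧ IsClock N M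

variable {A : Type} {t : ℕ → ℕ}

theorem mem_NTIMEPol {L : Set (List A)} :
    L ∈ NTIMEPol A t ↔ ∃ M : Machine A, Obeys M t ∧ ∀ w, w ∈ L ↔ Accepts M w := by
  constructor
  · rintro ⟨M, p, hM, hp⟩
    exact ⟨M, ⟨p, fun w hw => hp w ((hM w).2 hw)⟩, hM⟩
  · rintro ⟨M, ⟨p, hp⟩, hM⟩
    exact ⟨M, p, hM, fun w hw => hp w ((hM w).1 hw)⟩

theorem mem_coNTIMEPol {L : Set (List A)} : L ∈ coNTIMEPol A t ↔ Lᶜ ∈ NTIMEPol A t := Iff.rfl

/-- Closure under complementation. -/
theorem closed_iff : NTIMEPol A t = coNTIMEPol A t ↔ ∀ L ∈ NTIMEPol A t, Lᶜ ∈ NTIMEPol A t := by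
  constructor
  · intro h L hL
    rw [h] at hL
    exact hL
  · intro h
    ext L
    constructor
    · exact h L
    · intro hL
      have := h _ hL
      rwa [compl_compl] at this

theorem eval_mono (p : Polynomial ℕ) {a b : ℕ} (h : a ≤ b) : p.eval a ≤ p.eval b := by
  rw [Polynomial.eval_eq_sum_range, Polynomial.eval_eq_sum_range]
  exact Finset.sum_le_sum fun i _ => Nat.mul_le_mul_left _ (Nat.pow_le_pow_left h i)

/-- Enlarging the time bound polynomially. -/
theorem Obeys.mono {M : Machine A} {t' : ℕ → ℕ} (h : Obeys M t) (q : Polynomial ℕ)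
    (hq : ∀ n, t n ≤ q.eval (t' n)) : Obeys M t' := by
  obtain ⟨p, hp⟩ := h
  refine ⟨p.comp q, fun w hw => ?_⟩
  obtain ⟨s, hs, ha⟩ := hp w hw
  refine ⟨s, hs.trans ?_, ha⟩
  rw [Polynomial.eval_comp]
  exact eval_mono p (hq _)

/-- Polynomially related time bounds. -/
theorem obeys_congr {M : Machine A} {t' : ℕ → ℕ} (q q' : Polynomial ℕ)
    (hq : ∀ n, t n ≤ q.eval (t' n)) (hq' : ∀ n, t' n ≤ q'.eval (t n)) :
    Obeys M t ↔ Obeys M t' := ⟨fun h => h.mono q hq, fun h => h.mono q' hq'⟩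

theorem NTIMEPol_congr {t' : ℕ → ℕ} (q q' : Polynomial ℕ)
    (hq : ∀ n, t n ≤ q.eval (t' n)) (hq' : ∀ n, t' n ≤ q'.eval (t n)) :
    NTIMEPol A t = NTIMEPol A t' := by
  ext L
  rw [mem_NTIMEPol, mem_NTIMEPol]
  simp only [obeys_congr q q' hq hq']

theorem mem_coNTIMEPol_congr {t' : ℕ → ℕ} {q q' : Polynomial ℕ}
    (hq : ∀ n, t n ≤ q.eval (t' n)) (hq' : ∀ n, t' n ≤ q'.eval (t n)) :
    coNTIMEPol A t' = coNTIMEPol A t := by
  unfold coNTIMEPol
  rw [NTIMEPol_congr q q' hq hq']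

theorem clockable_congr {t' : ℕ → ℕ} (q q' : Polynomial ℕ)
    (hq : ∀ n, t n ≤ q.eval (t' n)) (hq' : ∀ n, t' n ≤ q'.eval (t n)) :
    Clockable A t ↔ Clockable A t' := by
  unfold Clockable
  simp only [obeys_congr q q' hq hq']

end Pool.Agent.H59.Clock
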