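import Pool.Agent.Lead.NTM

/-!
Machines whose tapes are indexed by an arbitrary finite type, their relation to `Machine`, and
the simulation of a machine by a block of states of another one.
-/

namespace Pool.Agent.H59.Clock

open Pool.Agent.Lead.NTM

/-- Nondeterministic machines whose tapes are indexed by a finite type `ι`; the input is written
on the tape `i0`. -/
structure GM (A : Type) where
  ι : Type
  finι : Finite ι
  i0 : ι
  Q : Type
  finQ : Finite Q
  G : Type
  finG : Finite G
  start : Q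
  acc : Set Q
  δ : Q → (ι → Option (A ⊕ G)) → Set (Q × (ι → Option (A ⊕ G)) × (ι → Move))

namespace GM

variable {A B : Type}

/-- Configurations. -/
@[ext] structure Conf (P : GM A) where
  st : P.Q
  tp : P.ι → ℤ → Option (A ⊕ P.G)
  ps : P.ι → ℤ

open Classical in
/-- The start configuration. -/
noncomputable def init (P : GM A) (w : List A) : P.Conf where
  st := P.start
  tp := fun i => if i = P.i0 then wordTape w else fun _ => none
  ps := fun _ => 0

theorem init_tp_self (P : GM A) (w : List A) : (P.init w).tp P.i0 = wordTape w := if_pos rfl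

theorem init_tp_ne (P : GM A) (w : List A) {i : P.ι} (h : i ≠ P.i0) :
    (P.init w).tp i = fun _ => none := if_neg h

/-- Actions. -/
abbrev Ac (P : GM A) := P.Q × (P.ι → Option (A ⊕ P.G)) × (P.ι → Move)

variable {P : GM A} {M : GM B}

/-- The effect of an action. -/
def act (c : P.Conf) (r : P.Ac) : P.Conf where
  st := r.1
  tp := fun i => Function.update (c.tp i) (c.ps i) (r.2.1 i)
  ps := fun i => c.ps i + (r.2.2 i).toInt

/-- The scanned letters. -/
def rd (c : P.Conf) : P.ι → Option (A ⊕ P.G) := fun i => c.tp i (c.ps i)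

/-- One step. -/
def Stp (c d : P.Conf) : Prop := ∃ r ∈ P.δ c.st (rd c), d = act c r

/-- Reachability in exactly `n` steps. -/
def Rch : ℕ → P.Conf → P.Conf → Prop
  | 0, c, d => c = d
  | n + 1, c, d => ∃ c', Stp c c' ∧ Rch n c' d

/-- Acceptance in exactly `s` steps. -/
def Acc (P : GM A) (w : List A) (s : ℕ) : Prop :=
  ∃ d : P.Conf, Rch s (P.init w) d ∧ d.st ∈ P.acc

theorem Rch.trans {m n : ℕ} {c d e : P.Conf} (h : Rch m c d) (h' : Rch n d e) :
    Rch (m + n) c e := by
  induction m generalizing c with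
  | zero =>
    have : c = d := h
    subst this
    simpa using h'
  | succ m ih =>
    obtain ⟨c', h1, h2⟩ := h
    have : m + 1 + n = (m + n) + 1 := by omega
    rw [this]
    exact ⟨c', h1, ih h2⟩

theorem rch_iff {n : ℕ} {c d : P.Conf} : Rch n c d ↔
    ∃ f : ℕ → P.Conf, f 0 = c ∧ (∀ i < n, Stp (f i) (f (i + 1))) ∧ f n = d := by
  induction n generalizing c with
  | zero =>
    constructor
    · intro h
      exact ⟨fun _ => c, rfl, fun i hi => absurd hi (Nat.not_lt_zero i), h⟩
    · rintro ⟨f, h0, -, hd⟩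
      exact h0.symm.trans hd
  | succ n ih =>
    constructor
    · rintro ⟨c', h1, h2⟩
      obtain ⟨f, h0, hs, hd⟩ := ih.1 h2
      refine ⟨fun i => Nat.casesOn i c f, rfl, ?_, hd⟩
      intro i hi
      cases i with
      | zero =>
        show Stp c (f 0)
        rw [h0]
        exact h1
      | succ i => exact hs i (by omega)
    · rintro ⟨f, h0, hs, hd⟩
      refine ⟨f 1, ?_, ih.2 ⟨fun i => f (i + 1), rfl, fun i hi => hs (i + 1) (by omega), hd⟩⟩
      rw [← h0]
      exact hs 0 (by omega)

/-! ### Machines as general machines -/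

/-- A machine as a general machine. -/
def ofMachine (M : Machine A) : GM A where
  ι := Fin (M.k + 1)
  finι := inferInstance
  i0 := 0
  Q := M.Q
  finQ := M.finQ
  G := M.G
  finG := M.finG
  start := M.start
  acc := M.accepting
  δ := M.δ

/-- Configurations as general configurations. -/
def conf {M : Machine A} (c : Config M) : (ofMachine M).Conf := ⟨c.state, c.tape, c.pos⟩

/-- And back. -/
def conf' {M : Machine A} (c : (ofMachine M).Conf) : Config M := ⟨c.st, c.tp, c.ps⟩

theorem stp_conf {M : Machine A} (c d : Config M) : Stp (conf c) (conf d) ↔ Step M c d := by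
  constructor
  · rintro ⟨r, hr, h⟩
    refine ⟨r, hr, ?_, ?_, ?_⟩
    · exact congrArg Conf.st h
    · exact congrArg Conf.tp h
    · exact congrArg Conf.ps h
  · rintro ⟨r, hr, h1, h2, h3⟩
    exact ⟨r, hr, Conf.ext h1 h2 h3⟩

theorem acc_ofMachine {M : Machine A} {w : List A} {s : ℕ} :
    (ofMachine M).Acc w s ↔ AcceptsIn M w s := by
  have hi : (ofMachine M).init w = conf (startConfig M w) := by
    refine Conf.ext rfl ?_ rfl
    funext i
    by_cases h : i = (ofMachine M).i0
    · subst h
      rw [init_tp_self]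
      show _ = if (0 : Fin (M.k + 1)) = 0 then wordTape w else fun _ => none
      rw [if_pos rfl]
    · rw [init_tp_ne _ _ h]
      exact (if_neg h).symm
  unfold Acc
  constructor
  · rintro ⟨d, hd, ha⟩
    obtain ⟨f, h0, hs, rfl⟩ := rch_iff.1 hd
    refine ⟨fun i => conf' (f i), ?_, fun i hi => ?_, ha⟩
    · show conf' (f 0) = _
      rw [h0, hi]
      rfl
    · exact (stp_conf _ _).1 (hs i hi)
  · rintro ⟨c, h0, hs, ha⟩
    refine ⟨conf (c s), rch_iff.2 ⟨fun i => conf (c i), ?_, fun i hi => ?_, rfl⟩, ha⟩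
    · show conf (c 0) = _
      rw [h0, hi]
    · exact (stp_conf _ _).2 (hs i hi)

/-! ### General machines as machines -/

theorem exists_equiv (P : GM A) : ∃ (k : ℕ) (e : P.ι ≃ Fin (k + 1)), e P.i0 = 0 := by
  classical
  have := P.finι
  have : Nonempty P.ι := ⟨P.i0⟩
  have hc : 0 < Nat.card P.ι := Nat.card_pos
  obtain ⟨k, hk⟩ : ∃ k, Nat.card P.ι = k + 1 := ⟨Nat.card P.ι - 1, by omega⟩
  set e := (Finite.equivFin P.ι).trans (finCongr hk) with he
  exact ⟨k, e.trans (Equiv.swap (e P.i0) 0), by simp⟩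

/-- Every general machine is equivalent to a machine, with the same accepting times. -/
theorem exists_machine (P : GM A) :
    ∃ M : Machine A, ∀ w s, AcceptsIn M w s ↔ P.Acc w s := by
  classical
  obtain ⟨k, e, he⟩ := exists_equiv P
  let M : Machine A :=
    { k := k
      Q := P.Q
      finQ := P.finQ
      G := P.G
      finG := P.finG
      start := P.start
      accepting := P.acc
      δ := fun q x => {r | (r.1, (fun i => r.2.1 (e i)), fun i => r.2.2 (e i)) ∈
        P.δ q (fun i => x (e i))} }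
  refine ⟨M, fun w s => ?_⟩
  let F : (ofMachine M).Conf → P.Conf := fun c => ⟨c.st, fun i => c.tp (e i), fun i => c.ps (e i)⟩
  have hstep : ∀ c d, Stp (F c) d → ∃ d', Stp c d' ∧ F d' = d := by
    rintro c d ⟨r, hr, rfl⟩
    refine ⟨act c (r.1, (fun i => r.2.1 (e.symm i)), fun i => r.2.2 (e.symm i)), ⟨_, ?_, rfl⟩, ?_⟩
    · show (r.1, (fun i => r.2.1 (e.symm (e i))), fun i => r.2.2 (e.symm (e i))) ∈ P.δ c.st _
      simp only [Equiv.symm_apply_apply]
      exact hr
    · refine Conf.ext rfl ?_ ?_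
      · funext i
        show Function.update (c.tp (e i)) (c.ps (e i)) (r.2.1 (e.symm (e i))) = _
        rw [e.symm_apply_apply]
        rfl
      · funext i
        show c.ps (e i) + (r.2.2 (e.symm (e i))).toInt = _
        rw [e.symm_apply_apply]
        rfl
  have hstep' : ∀ c d, Stp c d → Stp (F c) (F d) := by
    rintro c d ⟨r, hr, rfl⟩
    exact ⟨_, hr, rfl⟩
  have hinit : F ((ofMachine M).init w) = P.init w := by
    refine Conf.ext rfl ?_ rfl
    funext i
    show ((ofMachine M).init w).tp (e i) = (P.init w).tp i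
    by_cases h : i = P.i0
    · subst h
      rw [init_tp_self]
      have h2 : e P.i0 = (ofMachine M).i0 := he
      rw [h2]
      exact init_tp_self (ofMachine M) w
    · rw [init_tp_ne _ _ h]
      refine init_tp_ne (ofMachine M) w fun h' => h (e.injective (h'.trans he.symm))
  rw [← acc_ofMachine]
  unfold Acc
  rw [← hinit]
  generalize (ofMachine M).init w = c
  have key : ∀ (s : ℕ) (c : (ofMachine M).Conf),
      (∃ d, Rch s c d ∧ d.st ∈ (ofMachine M).acc) ↔ ∃ d, Rch s (F c) d ∧ d.st ∈ P.acc := by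
    intro s
    induction s with
    | zero =>
      intro c
      constructor
      · rintro ⟨d, hd, ha⟩
        have : c = d := hd
        subst this
        exact ⟨F c, rfl, ha⟩
      · rintro ⟨d, hd, ha⟩
        have : F c = d := hd
        subst this
        exact ⟨c, rfl, ha⟩
    | succ s ih =>
      intro c
      constructor
      · rintro ⟨d, ⟨c', h1, h2⟩, ha⟩
        obtain ⟨d', h3, h4⟩ := (ih c').1 ⟨d, h2, ha⟩
        exact ⟨d', ⟨F c', hstep' _ _ h1, h3⟩, h4⟩
      · rintro ⟨d, ⟨c', h1, h2⟩, ha⟩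
        obtain ⟨e', h3, rfl⟩ := hstep _ _ h1
        obtain ⟨d', h4, h5⟩ := (ih e').2 ⟨d, h2, ha⟩
        exact ⟨d', ⟨e', h3, h4⟩, h5⟩
  exact key s c

/-! ### Deterministic phases -/

/-- `n` deterministic steps through nonaccepting states. -/
def DN : ℕ → P.Conf → P.Conf → Prop
  | 0, c, d => c = d
  | n + 1, c, d => c.st ∉ P.acc ∧ ∃ c', (∀ e, Stp c e ↔ e = c') ∧ DN n c' d

theorem DN.trans {m n : ℕ} {c d e : P.Conf} (h : DN m c d) (h' : DN n d e) :
    DN (m + n) c e := by
  induction m generalizing c with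
  | zero =>
    have : c = d := h
    subst this
    simpa using h'
  | succ m ih =>
    obtain ⟨h0, c', h1, h2⟩ := h
    have : m + 1 + n = (m + n) + 1 := by omega
    rw [this]
    exact ⟨h0, c', h1, ih h2⟩

theorem DN.rch {n : ℕ} {c d : P.Conf} (h : DN n c d) : Rch n c d := by
  induction n generalizing c with
  | zero => exact h
  | succ n ih =>
    obtain ⟨-, c', h1, h2⟩ := h
    exact ⟨c', (h1 c').2 rfl, ih h2⟩

theorem DN.cut {n s : ℕ} {c d e : P.Conf} (h : DN n c d) (hs : Rch s c e) (he : e.st ∈ P.acc) :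
    ∃ u, s = n + u ∧ Rch u d e := by
  induction n generalizing c s with
  | zero =>
    have : c = d := h
    subst this
    exact ⟨s, by omega, hs⟩
  | succ n ih =>
    obtain ⟨h0, c', h1, h2⟩ := h
    cases s with
    | zero =>
      have : c = e := hs
      subst this
      exact absurd he h0
    | succ s =>
      obtain ⟨c'', h3, h4⟩ := hs
      have := (h1 c'').1 h3
      subst this
      obtain ⟨u, hu, h5⟩ := ih h2 h4
      exact ⟨u, by omega, h5⟩

/-! ### Blocks -/

open Classical in
/-- The function which is `f` on the image of `t` and `x` elsewhere. -/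
noncomputable def ovr {ι κ X : Type} (t : ι → κ) (f : ι → X) (x : X) (j : κ) : X :=
  if h : ∃ i, t i = j then f h.choose else x

theorem ovr_tp {ι κ X : Type} {t : ι → κ} (ht : Function.Injective t) (f : ι → X) (x : X)
    (i : ι) : ovr t f x (t i) = f i := by
  unfold ovr
  have h : ∃ i', t i' = t i := ⟨i, rfl⟩
  rw [dif_pos h, ht h.choose_spec]

theorem ovr_not {ι κ X : Type} {t : ι → κ} {j : κ} (h : ∀ i, t i ≠ j) (f : ι → X) (x : X) :
    ovr t f x j = x := by
  unfold ovr
  rw [dif_neg]
  rintro ⟨i, hi⟩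
  exact h i hi

/-- The machine `M` is simulated by a block of states and tapes of `P`. -/
structure Blk (M : GM B) (P : GM A) where
  st : M.Q → P.Q
  tp : M.ι → P.ι
  inj : Function.Injective tp
  enc : Option (B ⊕ M.G) → Option (A ⊕ P.G)
  dec : Option (A ⊕ P.G) → Option (B ⊕ M.G)
  dec_enc : ∀ x, dec (enc x) = x
  hδ : ∀ q x r, r ∈ P.δ (st q) x ↔ ∃ r' ∈ M.δ q (fun i => dec (x (tp i))),
    r = (st r'.1, (fun j => ovr tp (fun i => enc (r'.2.1 i)) (x j) j),
      (fun j => ovr tp r'.2.2 Move.stay j))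

namespace Blk

variable (b : Blk M P)

/-- The simulated configuration. -/
def F (q : M.Q) (d : P.Conf) : M.Conf :=
  ⟨q, fun i z => b.dec (d.tp (b.tp i) z), fun i => d.ps (b.tp i)⟩

theorem F_act (q : M.Q) (d : P.Conf) (r' : M.Ac) :
    b.F r'.1 (act d (b.st r'.1, (fun j => ovr b.tp (fun i => b.enc (r'.2.1 i)) (rd d j) j),
      (fun j => ovr b.tp r'.2.2 Move.stay j))) = act (b.F q d) r' := by
  refine Conf.ext rfl ?_ ?_
  · funext i z
    show b.dec (Function.update (d.tp (b.tp i)) (d.ps (b.tp i))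
      (ovr b.tp (fun i => b.enc (r'.2.1 i)) (rd d (b.tp i)) (b.tp i)) z) =
      Function.update (fun z => b.dec (d.tp (b.tp i) z)) (d.ps (b.tp i)) (r'.2.1 i) z
    rw [ovr_tp b.inj]
    by_cases hz : z = d.ps (b.tp i)
    · subst hz
      rw [Function.update_self, Function.update_self, b.dec_enc]
    · rw [Function.update_of_ne hz, Function.update_of_ne hz]
  · funext i
    show d.ps (b.tp i) + (ovr b.tp r'.2.2 Move.stay (b.tp i)).toInt =
      d.ps (b.tp i) + (r'.2.2 i).toInt
    rw [ovr_tp b.inj]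

theorem sound {n : ℕ} {d d' : P.Conf} (h : Rch n d d') : ∀ q, d.st = b.st q →
    ∃ q', d'.st = b.st q' ∧ Rch n (b.F q d) (b.F q' d') := by
  induction n generalizing d with
  | zero =>
    intro q hq
    have : d = d' := h
    subst this
    exact ⟨q, hq, rfl⟩
  | succ n ih =>
    intro q hq
    obtain ⟨c, ⟨r, hr, rfl⟩, h2⟩ := h
    rw [hq, b.hδ] at hr
    obtain ⟨r', hr', rfl⟩ := hr
    obtain ⟨q', hq', h3⟩ := ih h2 r'.1 rfl
    refine ⟨q', hq', ⟨act (b.F q d) r', ⟨r', hr', rfl⟩, ?_⟩⟩
    rw [← b.F_act]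
    exact h3

theorem complete {n : ℕ} {q : M.Q} {d : P.Conf} {c' : M.Conf} (h : Rch n (b.F q d) c') :
    d.st = b.st q → ∃ d', Rch n d d' ∧ d'.st = b.st c'.st ∧ b.F c'.st d' = c' := by
  induction n generalizing d q with
  | zero =>
    intro hq
    have : b.F q d = c' := h
    subst this
    exact ⟨d, rfl, hq, rfl⟩
  | succ n ih =>
    intro hq
    obtain ⟨c, ⟨r', hr', rfl⟩, h2⟩ := h
    rw [← b.F_act] at h2
    obtain ⟨d', h3, h4, h5⟩ := ih h2 rfl
    refine ⟨d', ⟨_, ⟨_, ?_, rfl⟩, h3⟩, h4, h5⟩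
    rw [hq, b.hδ]
    exact ⟨r', hr', rfl⟩

/-- Acceptance in a block. -/
theorem acc_iff (hacc : ∀ q, b.st q ∈ P.acc ↔ q ∈ M.acc) {n : ℕ} {q : M.Q} {d : P.Conf}
    (hd : d.st = b.st q) :
    (∃ d', Rch n d d' ∧ d'.st ∈ P.acc) ↔ ∃ c', Rch n (b.F q d) c' ∧ c'.st ∈ M.acc := by
  constructor
  · rintro ⟨d', h, ha⟩
    obtain ⟨q', hq', h'⟩ := b.sound h q hd
    rw [hq', hacc] at ha
    exact ⟨_, h', ha⟩
  · rintro ⟨c', h, ha⟩
    obtain ⟨d', h1, h2, h3⟩ := b.complete h hd
    refine ⟨d', h1, ?_⟩
    rw [h2, hacc]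
    exact ha

end Blk

end GM

end Pool.Agent.H59.Clock
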