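import Pool.Agent.H71.NT.UMach

/-!
Guess and check machines whose accepting computations are at least as long as the certificate.
-/

namespace Pool.Agent.H59.Clock

open Pool.Agent.Lead.NTM Pool.Agent.H79.Cx Pool.Agent.H71.NT Pool.Agent.H71.NT.UM

section

variable {A : Type} {p : Prog} {f : ℕ × List Bool → Bool} {P : Polynomial ℕ}
  (hp : ∀ x : ℕ × List Bool, RunLe p (st (cd x) [] [] []) (st (cd (f x)) [] [] [])
    (P.eval (sz x)))

include hp in
theorem sound_len (w : List A) (t : ℕ) : ∀ (y : List Bool) (e : Cf A p),
    CReach t (pcf p w .a0 0 (cd y)) e → e.st = .inl .acc →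
      ∃ y', y'.length ≤ y.length + t ∧ f (w.length, y') = true := by
  induction t using Nat.strong_induction_on with
  | _ t ih =>
    intro y e he hacc
    cases t with
    | zero =>
      have : e = pcf p w .a0 0 (cd y) := he
      subst this
      exact absurd hacc (by simp [pcf, mk])
    | succ t =>
      obtain ⟨d, hd, h⟩ := he
      rw [step_a0] at hd
      rcases hd with rfl | rfl | rfl
      · rcases (din_true w y).cases h with ⟨g, hg⟩ | ⟨u, hu, h'⟩
        · exact absurd hg (step_acc _ _ hacc)
        · obtain ⟨y', h1, h2⟩ := ih u (by omega) _ e h' hacc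
          refine ⟨y', ?_, h2⟩
          rw [List.length_cons] at h1
          omega
      · rcases (din_false w y).cases h with ⟨g, hg⟩ | ⟨u, hu, h'⟩
        · exact absurd hg (step_acc _ _ hacc)
        · obtain ⟨y', h1, h2⟩ := ih u (by omega) _ e h' hacc
          refine ⟨y', ?_, h2⟩
          rw [List.length_cons] at h1
          omega
      · obtain ⟨m, hm, hD⟩ := din_all hp w y
        rcases hD.cases h with ⟨g, hg⟩ | ⟨u, hu, h'⟩
        · exact absurd hg (step_acc _ _ hacc)
        · cases u with
          | zero =>
            have : e = dcfg p w none (st (cd (f (w.length, y))) [] [] []) := h'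
            subst this
            exact absurd hacc (by simp [dcfg, mk])
          | succ u =>
            obtain ⟨d, hd, -⟩ := h'
            rw [step_exit] at hd
            refine ⟨y, by omega, ?_⟩
            have h5 := hd.1
            rw [st_v] at h5
            cases hf : f (w.length, y) with
            | true => rfl
            | false =>
              rw [hf] at h5
              exact absurd h5 (by simp [cd, Enc.enc])

include hp in
theorem accepts_len (w : List A) (s : ℕ) (h : AcceptsIn (mach A p) w s) :
    ∃ y, y.length ≤ s ∧ f (w.length, y) = true := by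
  rw [acceptsIn_mach] at h
  obtain ⟨e, he, hacc⟩ := h
  rcases (din_start w).cases he with ⟨g, hg⟩ | ⟨u, hu, h'⟩
  · exact absurd hg (step_acc _ _ hacc)
  · obtain ⟨y, h1, h2⟩ := sound_len hp w u _ e h' hacc
    refine ⟨y, ?_, h2⟩
    rw [List.length_nil] at h1
    omega

end

/-- **Guess and check machines**, with a lower bound for the accepting times. -/
theorem exists_guess {f : ℕ × List Bool → Bool} (hf : PT f) :
    ∃ T : Polynomial ℕ, ∀ A : Type, ∃ M : Machine A,
      (∀ (w : List A) (s : ℕ), AcceptsIn M w s → ∃ y, y.length ≤ s ∧ f (w.length, y) = true) ∧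
      ∀ (w : List A) (y : List Bool), f (w.length, y) = true →
        ∃ s ≤ T.eval (w.length + y.length), AcceptsIn M w s := by
  obtain ⟨p, P, hp⟩ := hf
  have hp' : ∀ x : ℕ × List Bool, RunLe p (st (cd x) [] [] []) (st (cd (f x)) [] [] [])
      (P.eval (sz x)) := fun x => by simpa using hp x []
  refine ⟨4 * Polynomial.X + 5 + 2 * P.comp (4 * Polynomial.X + 3), fun A => ⟨mach A p, ?_, ?_⟩⟩
  · intro w s hs
    exact accepts_len hp' w s hs
  · intro w y hy
    obtain ⟨s, hs, h⟩ := accepts_of_true hp' w y hy
    refine ⟨s, hs.trans ?_, h⟩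
    have h1 : sz (w.length, y) ≤ 4 * (w.length + y.length) + 3 := by
      have h2 : sz y ≤ 1 + y.length * (1 + 3) := sz_list_le y 3 fun b _ => sz_bool_le b
      simp only [sz_pair, sz_nat]
      omega
    have h2 := eval_mono P h1
    simp only [Polynomial.eval_add, Polynomial.eval_mul, Polynomial.eval_X,
      Polynomial.eval_ofNat, Polynomial.eval_comp]
    omega

end Pool.Agent.H59.Clock
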