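import Pool.Agent.H59.Clock.Basic
import Pool.Agent.H59.Clock.Guess
import Pool.Agent.H71.NT.Near

/-!
Honest time bounds are clockable.
-/

namespace Pool.Agent.H59.Clock

open Pool.Agent.Lead.NTM Pool.Agent.H79.Cx Pool.Agent.H71.NT

/-- Verification: a run of the clock and a long certificate. -/
def vh (D : Desc) (k : ℕ) (x : ℕ × List Bool) : Bool :=
  D.valid x.1 ((decLL (parse x.2)).getD 0 []) && (D.acc ((decLL (parse x.2)).getD 0 []) &&
    !decide (x.2.length + 1 ≤ pw (((decLL (parse x.2)).getD 0 []).length + 2) (x.2.length + 1) k))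

theorem pt_vh (D : Desc) (k : ℕ) : PT (vh D k) := by
  show PT fun x => vh D k x
  unfold vh
  fun_prop

theorem vh_iff (D : Desc) (k n : ℕ) (y : List Bool) : vh D k (n, y) = true ↔
    D.valid n ((decLL (parse y)).getD 0 []) = true ∧ D.acc ((decLL (parse y)).getD 0 []) = true ∧
      (((decLL (parse y)).getD 0 []).length + 2) ^ k ≤ y.length := by
  unfold vh
  simp only [Bool.and_eq_true, Bool.not_eq_true', decide_eq_false_iff_not]
  rw [le_pw_iff _ _ _ (by omega)]
  refine and_congr_right fun _ => and_congr_right fun _ => ?_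
  omega

/-- **Honest time bounds are clockable.** -/
theorem clockable_of_honest {A : Type} {G τ : ℕ → ℕ} {C : Machine Unit} {pG : Polynomial ℕ}
    (hC : ∀ n s, AcceptsIn C (List.replicate n ()) s ↔ s = τ n)
    (hτ : ∀ n, G n ≤ τ n ∧ τ n ≤ pG.eval (G n)) (hid : ∀ n, n ≤ G n) : Clockable A G := by
  rintro M ⟨p, hp⟩
  obtain ⟨k, hk⟩ := exists_pow_bound' p
  set D := descM C () with hD
  have hrun : ∀ n s, (∃ h : List ℕ, h.length = s ∧ D.valid n h = true ∧ D.acc h = true) ↔
      s = τ n := fun n s => (acceptsIn_iff_desc C () n s).symm.trans (hC n s)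
  obtain ⟨T, hT⟩ := exists_guess (pt_vh D k)
  obtain ⟨N, hN, hN'⟩ := hT A
  -- certificates
  have hcert : ∀ n : ℕ, ∃ y : List Bool, vh D k (n, y) = true ∧
      y.length ≤ 4 + τ n * (2 * D.nr + 2) + (τ n + 2) ^ k := by
    intro n
    obtain ⟨h, hl, hv, ha⟩ := (hrun n (τ n)).2 rfl
    refine ⟨cd [h] ++ List.replicate ((τ n + 2) ^ k) false, ?_, ?_⟩
    · rw [vh_iff]
      have h0 : decLL (parse (cd [h] ++ List.replicate ((τ n + 2) ^ k) false)) = [h] := by
        have h1 : parse (cd [h] ++ List.replicate ((τ n + 2) ^ k) false) = Enc.enc [h] :=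
          parse_enc _ _
        rw [h1, decLL_enc]
      rw [h0]
      refine ⟨hv, ha, ?_⟩
      simp only [List.getD_cons_zero, List.length_append, List.length_replicate]
      rw [hl]
      omega
    · have h1 : sz h ≤ 1 + h.length * (2 * D.nr + 2) := sz_hist_le (Desc.lt_of_valid hv)
      have h2 : sz [h] = 1 + sz h + 1 := by simp only [sz_cons, sz_nil]
      rw [List.length_append, List.length_replicate, length_cd, h2]
      rw [hl] at h1
      omega
  refine ⟨N, ⟨T.comp (Polynomial.X + (4 + pG * Polynomial.C (2 * D.nr + 2) + (pG + 2) ^ k)),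
    fun w _ => ?_⟩, fun w => ?_, fun w s hw hs => ?_⟩
  · obtain ⟨y, hy, hyl⟩ := hcert w.length
    obtain ⟨s, hs, ha⟩ := hN' w y hy
    refine ⟨s, hs.trans ?_, ha⟩
    rw [Polynomial.eval_comp]
    refine eval_mono T ?_
    simp only [Polynomial.eval_add, Polynomial.eval_mul, Polynomial.eval_X, Polynomial.eval_C,
      Polynomial.eval_ofNat, Polynomial.eval_pow]
    have h1 := (hτ w.length).2
    have h2 := hid w.length
    have h3 : τ w.length * (2 * D.nr + 2) ≤ pG.eval (G w.length) * (2 * D.nr + 2) :=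
      Nat.mul_le_mul_right _ h1
    have h4 : (τ w.length + 2) ^ k ≤ (pG.eval (G w.length) + 2) ^ k :=
      Nat.pow_le_pow_left (by omega) _
    omega
  · obtain ⟨y, hy, -⟩ := hcert w.length
    obtain ⟨s, -, ha⟩ := hN' w y hy
    exact ⟨s, ha⟩
  · obtain ⟨y, hyl, hy⟩ := hN w s hs
    rw [vh_iff] at hy
    obtain ⟨hv, ha, hb⟩ := hy
    have hlen := (hrun w.length _).1 ⟨_, rfl, hv, ha⟩
    rw [hlen] at hb
    obtain ⟨s', hs', ha'⟩ := hp w hw
    refine ⟨s', ?_, ha'⟩
    have h1 : p.eval (G w.length) ≤ p.eval (τ w.length + 2) :=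
      eval_mono p ((hτ _).1.trans (by omega))
    have h2 := hk (τ w.length + 2) (by omega)
    omega

end Pool.Agent.H59.Clock
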