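import Pool.Agent.H59.Clock.Core

/-!
Closure under complementation and clockability.
-/

namespace Pool.Agent.H59.Clock

open Pool.Agent.Lead.NTM Pool.Agent.H71.NT Filter

/-- The cone above an honest bound. -/
theorem cone_iff {G : ℕ → ℕ} (hG : Honest G) (hid : ∀ n, n ≤ G n)
    (hr : ∃ r : Polynomial ℕ, ∀ n, G (n + 1) ≤ r.eval (G n)) :
    (∀ (A : Type) [Finite A], NTIMEPol A G = coNTIMEPol A G) ↔
      ∀ t : ℕ → ℕ, (∀ n, G n ≤ t n) → ∀ (A : Type) [Finite A],
        (NTIMEPol A t = coNTIMEPol A t ↔ Clockable A t) := by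
  obtain ⟨C, τ, pG, hC, hτ⟩ := hG
  obtain ⟨r, hr⟩ := hr
  constructor
  · intro h t ht A _
    exact ⟨clockable_of_closed, closed_of_clockable hC hτ hid hr (h (Option A)) ht⟩
  · intro h A _
    exact (h G (fun _ => le_rfl) A).2 (clockable_of_honest hC hτ hid)

/-- **`NP = coNP` if and only if closure is equivalent to clockability for every time bound.** -/
theorem np_iff :
    (∀ (A : Type) [Finite A], NTIMEPol A (fun n => n) = coNTIMEPol A (fun n => n)) ↔
      ∀ (t : ℕ → ℕ) (A : Type) [Finite A], (NTIMEPol A t = coNTIMEPol A t ↔ Clockable A t) := by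
  have hr : ∃ r : Polynomial ℕ, ∀ n : ℕ, (n + 1) ≤ r.eval n :=
    ⟨Polynomial.X + 1, fun n => by simp⟩
  constructor
  · intro h t A _
    by_cases hs : ∀ k : ℕ, ∃ᶠ n in atTop, t n ^ k < n
    · exact closed_iff_clockable_of_sub hs
    · push Not at hs
      obtain ⟨k, hk⟩ := hs
      obtain ⟨N, hN⟩ := eventually_atTop.1 hk
      have h1 : ∀ n, t n ≤ (Polynomial.X : Polynomial ℕ).eval (t n ^ k + t n + N) := by
        intro n
        rw [Polynomial.eval_X]
        omega
      have h2 : ∀ n, t n ^ k + t n + N ≤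
          (Polynomial.X ^ k + Polynomial.X + Polynomial.C N : Polynomial ℕ).eval (t n) := by
        intro n
        simp
      rw [← mem_coNTIMEPol_congr h1 h2, NTIMEPol_congr _ _ h1 h2, clockable_congr _ _ h1 h2]
      refine (cone_iff honest_id (fun _ => le_rfl) hr).1 h _ (fun n => ?_) A
      rcases Nat.lt_or_ge n N with h3 | h3
      · omega
      · have := hN n h3
        omega
  · intro h
    exact (cone_iff honest_id (fun _ => le_rfl) hr).2 fun t _ A _ => h t A

end Pool.Agent.H59.Clock
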