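import Pool.Agent.H27.LD.Main
import Pool.Agent.H59.Clock.HClock

/-!
The negative case: the time bound `tX x` is not clockable if `x` is not in the set.
-/

namespace Pool.Agent.H59.Clock

open Pool.Agent.H79.Cx Pool.Agent.Lead.NTM Pool.Agent.H71.NT Pool.Agent.H27.LD
open Pool.Agent.H83.NT (P3 exists_time_bound)

/-- The verification function of the negative case, with a long certificate. -/
def vX (C G E : Desc) (x a : ℕ) (z : ℕ × List Bool) : Bool :=
  verX C G E x a z.1 (decLL (parse z.2)) &&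
    !decide (z.2.length ≤ pw ((decLL (parse z.2)).getD 3 []).length z.2.length
      (kk (Desc.at2 (decLL (parse z.2)) 0 1)))

theorem pt_vX (C G E : Desc) (x a : ℕ) : PT (vX C G E x a) := by
  show PT fun z => vX C G E x a z
  unfold vX
  fun_prop

theorem vX_iff {G : Desc} {τ : ℕ → ℕ} (hG : IsTime G τ) {C E : Desc} {x a n : ℕ} {y : List Bool} :
    vX C G E x a (n, y) = true ↔ verX C G E x a n (decLL (parse y)) = true ∧
      τ n ^ kk (Desc.at2 (decLL (parse y)) 0 1) < y.length := by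
  unfold vX
  rw [Bool.and_eq_true, Bool.not_eq_true', decide_eq_false_iff_not]
  refine and_congr_right fun h => ?_
  have h0 : verX C G E x a n (decLL (parse y)) = true := h
  unfold verX at h0
  rw [Bool.and_eq_true] at h0
  have h' := h0.1
  rw [verW_iff hG] at h'
  have h1 := hG.length h'.2.2.2.2.2.2.1 h'.2.2.2.2.2.2.2.1
  have hn : 1 ≤ τ n := by
    have h2 := two_le_sN (τ := τ) ((decLL (parse y)).drop 5).length
    have h3 := chn_eq hG h'.1
    have h4 := hG.2 n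
    omega
  simp only [h1]
  rw [le_pw_iff _ _ _ hn]
  omega

theorem exists_certX' {G : Desc} {τ : ℕ → ℕ} (hG : IsTime G τ) (C E : Desc) (x a : ℕ) :
    ∃ Q : Polynomial ℕ, ∀ r, aa r = a → EV E x r → WV C τ r → ∃ c : List (List ℕ),
      verX C G E x a (sN τ r) c = true ∧ Desc.at2 c 0 1 = ss r ∧
      (cd c).length ≤ Q.eval (τ (sN τ r) + τ (sN τ r) ^ kk (ss r)) := by
  obtain ⟨Q, hQ⟩ := exists_cert hG C E.nr
  refine ⟨Q, fun r ha hE hr => ?_⟩
  obtain ⟨h4, hl4, hv4, ha4⟩ := hE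
  have hrn : r ≤ sN τ r := (sN_strictMono hG).id_le r
  have hur := uu_le r
  obtain ⟨c, h1, h2, h3, h5, h6, h7⟩ := hQ r h4 hr (by omega) (Desc.lt_of_valid hv4)
  refine ⟨c, ?_, h5, h7⟩
  unfold verX
  simp only [Bool.and_eq_true, decide_eq_true_eq]
  unfold inp at hv4
  rw [h2, h3, h5, h6, ← ha]
  exact ⟨h1, rfl, hl4, hv4, ha4⟩

/-- What a certificate certifies. -/
theorem of_verX {G : Desc} {τ : ℕ → ℕ} (hG : IsTime G τ) (C : Desc) {E : Desc} {x a n : ℕ}
    {c : List (List ℕ)} (h : verX C G E x a n c = true) :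
    ∃ r, sN τ r = n ∧ aa r = a ∧ EV E x r ∧ WV C τ r ∧ ss r = Desc.at2 c 0 1 := by
  unfold verX at h
  simp only [Bool.and_eq_true, decide_eq_true_eq] at h
  obtain ⟨h1, h2, h3, h4, h5⟩ := h
  obtain ⟨r, h6, h7, h8, h9, h10⟩ := of_verW hG C h1
  refine ⟨r, h6, by rw [h8, h2], ⟨_, by rw [h3, h10], ?_, h5⟩, h7, h9⟩
  unfold inp
  rw [h8, h2, h9]
  exact h4

/-- **The negative case.** -/
theorem not_clockable (Z : Dat) {x : ℕ} (hx : x ∉ Z.W.set) (A : Type) [Finite A] [Nonempty A] :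
    ¬ Clockable A (Z.tX x) := by
  classical
  intro hclock
  have hx' : ∃ a, ¬ ∃ b, ∀ c, Z.W.R x a b c = true := by
    by_contra h
    push Not at h
    exact hx fun a => (h a).imp fun b hb c => by simpa using hb c
  obtain ⟨a, ha⟩ := hx'
  obtain ⟨T, hT⟩ := exists_guess (pt_vX Z.C Z.D Z.E x a)
  obtain ⟨ML, hML, hML'⟩ := hT A
  obtain ⟨Q, hQ⟩ := exists_certX' Z.hD Z.C Z.E x a
  obtain ⟨R, hR⟩ := (Z.finite_blocked x a).bddAbove
  obtain ⟨K, hK⟩ := exists_time_bound ML (sN Z.τ (R + 1))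
  -- acceptance of `ML`
  have hacc : ∀ (w : List A) (r : ℕ), sN Z.τ r = w.length → aa r = a → Z.WR x r →
      ∃ s ≤ T.eval (w.length + (Q.eval (Z.τ w.length + Z.τ w.length ^ kk (ss r)) +
        (Z.τ w.length ^ kk (ss r) + 1))), AcceptsIn ML w s := by
    intro w r hr har hWR
    obtain ⟨c, hc, hcr, hcl⟩ := hQ r har hWR.1 hWR.2
    rw [hr] at hc hcl
    have hv : vX Z.C Z.D Z.E x a (w.length, cd c ++
        List.replicate (Z.τ w.length ^ kk (ss r) + 1) false) = true := by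
      rw [vX_iff Z.hD]
      have h0 : decLL (parse (cd c ++
          List.replicate (Z.τ w.length ^ kk (ss r) + 1) false)) = c := by
        have h1 : parse (cd c ++ List.replicate (Z.τ w.length ^ kk (ss r) + 1) false) =
          Enc.enc c := parse_enc _ _
        rw [h1, decLL_enc]
      rw [h0, hcr]
      refine ⟨hc, ?_⟩
      rw [List.length_append, List.length_replicate]
      omega
    obtain ⟨s, hs', ha⟩ := hML' w _ hv
    refine ⟨s, hs'.trans (Pool.Agent.H59.Clock.eval_mono T ?_), ha⟩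
    rw [List.length_append, List.length_replicate]
    omega
  have hslow : ∀ (w : List A) (s : ℕ), AcceptsIn ML w s → ∃ r, sN Z.τ r = w.length ∧
      aa r = a ∧ Z.WR x r ∧ Z.τ w.length ^ kk (ss r) < s := by
    intro w s hs
    obtain ⟨y, hy, hyv⟩ := hML w s hs
    rw [vX_iff Z.hD] at hyv
    obtain ⟨r, h1, h2, h3, h4, h5⟩ := of_verX Z.hD Z.C hyv.1
    refine ⟨r, h1, h2, ⟨h3, h4⟩, ?_⟩
    rw [h5]
    omega
  have hML0 : Obeys ML (Z.tX x) := by
    refine ⟨T.comp (Polynomial.X + (Q.comp (Z.pG.comp Polynomial.X + Polynomial.X) +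
      (Polynomial.X + 1))) + Polynomial.C K, ?_⟩
    rintro w ⟨s0, hs0⟩
    simp only [Polynomial.eval_comp, Polynomial.eval_add, Polynomial.eval_X,
      Polynomial.eval_one, Polynomial.eval_C]
    obtain ⟨r, hr, har, hWR, -⟩ := hslow w s0 hs0
    by_cases hRa : Z.Ra x r
    · obtain ⟨s, hs', hsa⟩ := hacc w r hr har hWR
      refine ⟨s, hs'.trans ?_, hsa⟩
      refine le_trans ?_ (Nat.le_add_right _ _)
      have hG : Z.G w.length ≤ Z.tX x w.length := Z.G_le_tX x _
      have h2 : w.length ≤ Z.tX x w.length := (Z.Gid _).trans hG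
      have h3 : Z.τ w.length ^ kk (ss r) ≤ Z.tX x w.length := by
        have h5 := Z.val_le_tX (n := w.length) hr.le hRa
        unfold Pool.Agent.H27.LD.val at h5
        rwa [hr] at h5
      have h4 : Z.τ w.length ≤ Z.pG.eval (Z.tX x w.length) :=
        (Z.τG _).2.trans (Pool.Agent.H59.Clock.eval_mono Z.pG hG)
      exact Pool.Agent.H59.Clock.eval_mono T (Nat.add_le_add h2 (Nat.add_le_add
        (Pool.Agent.H59.Clock.eval_mono Q (Nat.add_le_add h4 h3)) (Nat.add_le_add_right h3 1)))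
    · have h1 : r ≤ R := hR ⟨har, hWR, hRa⟩
      have h2 : sN Z.τ r < sN Z.τ (R + 1) := Z.sN_mono (by omega)
      obtain ⟨s, h3, h4⟩ := hK w (by omega) ⟨s0, hs0⟩
      exact ⟨s, by omega, h4⟩
  obtain ⟨M, ⟨p, hp⟩, hMtot, hMclk⟩ := hclock ML hML0
  obtain ⟨b⟩ := ‹Nonempty A›
  obtain ⟨k, hk⟩ := exists_pow_bound' p
  obtain ⟨N, hN⟩ := Z.hu (Z.e0 * k)
  obtain ⟨y, hyv, hya⟩ := (Z.hC (Nat.pair k N)).1 (by rw [Nat.unpair_pair]; exact hN)
  obtain ⟨s, hsB, hsk, hsd⟩ := exists_index_desc k (descM M b) (max N y.length)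
  have hev : ∀ b ≤ s, ∃ c, Z.W.R x a b c = false := by
    intro b _
    by_contra h
    push Not at h
    exact ha ⟨b, fun c => by simpa using h c⟩
  obtain ⟨z, hzv, hza⟩ := (Z.hE x a s).1 hev
  set r := mk3 a s z.length with hr
  have hra : aa r = a := aa_mk3 _ _ _
  have hrs : ss r = s := ss_mk3 _ _ _
  have hru : uu r = z.length := uu_mk3 _ _ _
  set n := sN Z.τ r with hn
  have hsr : s ≤ r := hrs ▸ ss_le r
  have hrn : r ≤ n := Z.sN_mono.id_le r
  have hg : Good Z.C (kk (ss r)) n := by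
    rw [hrs, hsk]
    exact ⟨N, by omega, y, by omega, hyv, hya⟩
  have hE : EV Z.E x r := ⟨z, hru.symm, by rw [hra, hrs]; exact hzv, hza⟩
  have hV : Z.WR x r ↔ ∃ j ≤ Z.τ n ^ k, AcceptsIn M (List.replicate n b) j := by
    constructor
    · rintro ⟨-, -, y, hy, hyv, hya⟩
      rw [hrs, hsk] at hy
      rw [hrs, hsd] at hyv hya
      exact ⟨y.length, hy, (acceptsIn_iff_desc M b n _).2 ⟨y, rfl, hyv, hya⟩⟩
    · rintro ⟨j, hj, hacc⟩
      obtain ⟨y, hyl, hyv, hya⟩ := (acceptsIn_iff_desc M b n _).1 hacc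
      refine ⟨hE, hg, y, ?_, ?_, ?_⟩
      · rw [hrs, hsk, hyl]; exact hj
      · rw [hrs, hsd]; exact hyv
      · rw [hrs, hsd]; exact hya
  have hlen : (List.replicate n b).length = n := List.length_replicate
  have hv : Z.WR x r := by
    by_contra hv
    obtain ⟨j, hj, hacc⟩ := hp _ (hMtot (List.replicate n b))
    refine hv (hV.2 ⟨j, hj.trans ?_, hacc⟩)
    rw [hlen, Z.tX_of_not (n := n) (r := r) le_rfl (Z.sN_mono (Nat.lt_succ_self r))
      (fun h => hv h.1)]
    have h5 := two_le_sN (τ := Z.τ) r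
    have h6 := Z.Gid n
    exact (hk _ (by omega)).trans (Nat.pow_le_pow_left (Z.τG _).1 _)
  obtain ⟨j, hj, hja⟩ := hV.1 hv
  obtain ⟨s1, -, hs1⟩ := hacc (List.replicate n b) r (by rw [hlen]) hra hv
  obtain ⟨s2, hs2, hs2a⟩ := hMclk _ j ⟨s1, hs1⟩ hja
  obtain ⟨r', h7, -, -, h8⟩ := hslow _ s2 hs2a
  have h9 : r' = r := Z.sN_mono.injective (h7.trans hlen)
  rw [hlen, h9, hrs, hsk] at h8
  omega

end Pool.Agent.H59.Clock
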