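import Pool.Agent.H59.Clock.Union

/-!
Guessing a padding: from a machine over the alphabet `Option A` we obtain a machine over `A` which
appends a guessed number of letters `none` to its input.
-/

namespace Pool.Agent.H59.Clock

open Pool.Agent.Lead.NTM

namespace GM

variable {A : Type}

theorem wordTape_isSome {G : Type} (v : List A) (z : ℤ) :
    (wordTape v z : Option (A ⊕ G)).isSome = true ↔ 0 ≤ z ∧ z < v.length := by
  unfold wordTape
  by_cases h0 : 0 ≤ z
  · rw [if_pos h0]
    by_cases h1 : z < v.length
    · have : z.toNat < v.length := by omega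
      rw [List.getElem?_eq_getElem this]
      simp [h0, h1]
    · have : v.length ≤ z.toNat := by omega
      rw [List.getElem?_eq_none this]
      simp [h1]
  · rw [if_neg h0]
    simp [h0]

/-- The three phases before the run. -/
inductive Ph3
  | w0 | w1 | w2
  deriving DecidableEq

instance : Finite Ph3 :=
  Finite.of_injective (fun m : Ph3 => (match m with
    | .w0 => 0 | .w1 => 1 | .w2 => 2 : Fin 3)) (by
      intro a b h
      cases a <;> cases b <;> simp_all)

/-- Encoding of a symbol. -/
def encP {G : Type} : Option (Option A ⊕ G) → Option (A ⊕ (Unit ⊕ G))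
  | some (.inl (some a)) => some (.inl a)
  | some (.inl none) => some (.inr (.inl ()))
  | some (.inr g) => some (.inr (.inr g))
  | none => none

/-- Decoding of a symbol. -/
def decP {G : Type} : Option (A ⊕ (Unit ⊕ G)) → Option (Option A ⊕ G)
  | some (.inl a) => some (.inl (some a))
  | some (.inr (.inl ())) => some (.inl none)
  | some (.inr (.inr g)) => some (.inr g)
  | none => none

theorem decP_encP {G : Type} (x : Option (Option A ⊕ G)) : decP (encP x) = x := by
  rcases x with _ | ((_ | a) | g) <;> rfl

/-- The tape with the word `v`. -/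
def wt {G : Type} (v : List (Option A)) (z : ℤ) : Option (A ⊕ (Unit ⊕ G)) := encP (wordTape v z)

theorem wt_isSome {G : Type} (v : List (Option A)) (z : ℤ) :
    (wt v z : Option (A ⊕ (Unit ⊕ G))).isSome = true ↔ 0 ≤ z ∧ z < v.length := by
  rw [← wordTape_isSome (G := G) v z]
  unfold wt
  rcases (wordTape v z : Option (Option A ⊕ G)) with _ | ((_ | a) | g) <;> simp [encP]

theorem wt_map {G : Type} (w : List A) (z : ℤ) :
    (wt (w.map some) z : Option (A ⊕ (Unit ⊕ G))) = wordTape w z := by
  unfold wt wordTape
  split_ifs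
  · rw [List.getElem?_map]
    cases w[z.toNat]? <;> rfl
  · rfl

theorem update_wt {G : Type} (v : List (Option A)) :
    Function.update (wt v : ℤ → Option (A ⊕ (Unit ⊕ G))) (v.length : ℤ) (some (.inr (.inl ()))) =
      wt (v ++ [none]) := by
  funext z
  by_cases hz : z = v.length
  · subst hz
    rw [Function.update_self]
    unfold wt wordTape
    rw [if_pos (by omega)]
    simp [encP]
  · rw [Function.update_of_ne hz]
    unfold wt wordTape
    by_cases h0 : 0 ≤ z
    · rw [if_pos h0, if_pos h0]
      by_cases h1 : z.toNat < v.length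
      · rw [List.getElem?_append_left h1]
      · rw [List.getElem?_eq_none (by omega), List.getElem?_eq_none]
        simp only [List.length_append, List.length_cons, List.length_nil]
        omega
    · rw [if_neg h0, if_neg h0]

variable (K : GM (Option A))

open Classical in
/-- move on the input tape only -/
noncomputable def mv {A : Type} (K : GM A) (m : Move) : K.ι → Move :=
  fun j => if j = K.i0 then m else .stay

/-- The padding machine. -/
@[reducible] noncomputable def pad : GM A where
  ι := K.ι
  finι := K.finι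
  i0 := K.i0
  Q := Ph3 ⊕ K.Q
  finQ := by
    have := K.finQ
    infer_instance
  G := Unit ⊕ K.G
  finG := by
    have := K.finG
    infer_instance
  start := .inl .w0
  acc := {q | ∃ q₁ ∈ K.acc, q = .inr q₁}
  δ := fun q x => match q with
    | .inl .w0 => if (x K.i0).isSome = true then {(.inl .w0, x, mv K .right)}
        else {(.inl .w1, x, mv K .stay)}
    | .inl .w1 => {(.inl .w1, (open Classical in Function.update x K.i0 (some (.inr (.inl ())))),
        mv K .right), (.inl .w2, x, mv K .left)}
    | .inl .w2 => if (x K.i0).isSome = true then {(.inl .w2, x, mv K .left)}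
        else {(.inr K.start, x, mv K .right)}
    | .inr q => {r | ∃ r' ∈ K.δ q (fun i => decP (x i)), r = lift (fun q => .inr q) id encP x r'}

/-- The block of `K`. -/
noncomputable def pblk : Blk K (pad K) where
  st := fun q => .inr q
  tp := id
  inj := Function.injective_id
  enc := encP
  dec := decP
  dec_enc := decP_encP
  hδ := fun _ _ _ => Iff.rfl

open Classical in
/-- A configuration before the run. -/
noncomputable def pc (q : Ph3 ⊕ K.Q) (v : List (Option A)) (z : ℤ) : (pad K).Conf where
  st := q
  tp := fun i => if i = K.i0 then wt v else fun _ => none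
  ps := fun i => if i = K.i0 then z else 0

variable {K}

theorem pc_tp_self (q : Ph3 ⊕ K.Q) (v : List (Option A)) (z : ℤ) :
    (pc K q v z).tp K.i0 = wt v := if_pos rfl

theorem pc_tp_ne (q : Ph3 ⊕ K.Q) (v : List (Option A)) (z : ℤ) {i : K.ι} (h : i ≠ K.i0) :
    (pc K q v z).tp i = fun _ => none := if_neg h

theorem pc_ps_self (q : Ph3 ⊕ K.Q) (v : List (Option A)) (z : ℤ) :
    (pc K q v z).ps K.i0 = z := if_pos rfl

theorem pc_ps_ne (q : Ph3 ⊕ K.Q) (v : List (Option A)) (z : ℤ) {i : K.ι} (h : i ≠ K.i0) :
    (pc K q v z).ps i = 0 := if_neg h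

theorem pc_rd (q : Ph3 ⊕ K.Q) (v : List (Option A)) (z : ℤ) :
    rd (pc K q v z) K.i0 = wt v z := by
  unfold rd
  rw [pc_tp_self, pc_ps_self]

theorem pc_act (q q' : Ph3 ⊕ K.Q) (v : List (Option A)) (z : ℤ) (m : Move) :
    act (pc K q v z) (q', rd (pc K q v z), mv K m) = pc K q' v (z + m.toInt) := by
  refine Conf.ext rfl ?_ ?_
  · funext i
    show Function.update ((pc K q v z).tp i) _ (rd (pc K q v z) i) = (pc K q' v _).tp i
    have : Function.update ((pc K q v z).tp i) ((pc K q v z).ps i) (rd (pc K q v z) i) =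
      (pc K q v z).tp i := Function.update_eq_self _ _
    rw [this]
    rfl
  · funext i
    show (pc K q v z).ps i + (mv K m i).toInt = (pc K q' v _).ps i
    by_cases h : i = K.i0
    · subst h
      rw [pc_ps_self, pc_ps_self]
      unfold mv
      rw [if_pos rfl]
    · rw [pc_ps_ne _ _ _ h, pc_ps_ne _ _ _ h]
      unfold mv
      rw [if_neg h]
      rfl

theorem pc_act' (q q' : Ph3 ⊕ K.Q) (v : List (Option A)) :
    act (pc K q v v.length) (q', (open Classical in Function.update (rd (pc K q v v.length))
      K.i0 (some (.inr (.inl ())))), mv K .right) = pc K q' (v ++ [none]) (v.length + 1) := by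
  classical
  refine Conf.ext rfl ?_ ?_
  · funext i
    show Function.update ((pc K q v v.length).tp i) ((pc K q v v.length).ps i)
      (Function.update (rd (pc K q v v.length)) K.i0 (some (.inr (.inl ()))) i) =
      (pc K q' (v ++ [none]) _).tp i
    by_cases h : i = K.i0
    · subst h
      rw [pc_tp_self, pc_tp_self, pc_ps_self, Function.update_self, update_wt]
    · rw [Function.update_of_ne h]
      have : Function.update ((pc K q v v.length).tp i) ((pc K q v v.length).ps i)
        (rd (pc K q v v.length) i) = (pc K q v v.length).tp i := Function.update_eq_self _ _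
      rw [this, pc_tp_ne _ _ _ h, pc_tp_ne _ _ _ h]
  · funext i
    show (pc K q v v.length).ps i + (mv K .right i).toInt = (pc K q' _ _).ps i
    by_cases h : i = K.i0
    · subst h
      rw [pc_ps_self, pc_ps_self]
      unfold mv
      rw [if_pos rfl]
      rfl
    · rw [pc_ps_ne _ _ _ h, pc_ps_ne _ _ _ h]
      unfold mv
      rw [if_neg h]
      rfl

theorem w0_lt {v : List (Option A)} {z : ℤ} (h0 : 0 ≤ z) (h1 : z < v.length) (e) :
    Stp (pc K (.inl .w0) v z) e ↔ e = pc K (.inl .w0) v (z + 1) := by
  have hs := (wt_isSome (G := K.G) v z).2 ⟨h0, h1⟩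
  have hδ : (pad K).δ (.inl .w0) (rd (pc K (.inl .w0) v z)) =
      {(.inl .w0, rd (pc K (.inl .w0) v z), mv K .right)} := by
    show (if (rd (pc K (.inl .w0) v z) K.i0).isSome = true then _ else _) = _
    rw [pc_rd, if_pos hs]
  constructor
  · rintro ⟨r, hr, rfl⟩
    rw [show (pc K (.inl .w0) v z).st = .inl .w0 from rfl, hδ] at hr
    rw [Set.mem_singleton_iff] at hr
    subst hr
    exact pc_act _ _ _ _ _
  · rintro rfl
    refine ⟨_, ?_, (pc_act (.inl .w0) (.inl .w0) v z .right).symm⟩
    rw [show (pc K (.inl .w0) v z).st = .inl .w0 from rfl, hδ]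
    exact rfl

theorem w0_end (v : List (Option A)) (e) :
    Stp (pc K (.inl .w0) v v.length) e ↔ e = pc K (.inl .w1) v v.length := by
  have hs : ¬ (wt (G := K.G) v v.length).isSome = true := by
    rw [wt_isSome]
    omega
  have hδ : (pad K).δ (.inl .w0) (rd (pc K (.inl .w0) v v.length)) =
      {(.inl .w1, rd (pc K (.inl .w0) v v.length), mv K .stay)} := by
    show (if (rd (pc K (.inl .w0) v v.length) K.i0).isSome = true then _ else _) = _
    rw [pc_rd, if_neg hs]
  have ha := pc_act (K := K) (.inl .w0) (.inl .w1) v v.length .stay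
  rw [show (v.length : ℤ) + Move.stay.toInt = v.length from add_zero _] at ha
  constructor
  · rintro ⟨r, hr, rfl⟩
    rw [show (pc K (.inl .w0) v v.length).st = .inl .w0 from rfl, hδ] at hr
    rw [Set.mem_singleton_iff] at hr
    subst hr
    exact ha
  · rintro rfl
    refine ⟨_, ?_, ha.symm⟩
    rw [show (pc K (.inl .w0) v v.length).st = .inl .w0 from rfl, hδ]
    exact rfl

theorem w1_stp (v : List (Option A)) (e) :
    Stp (pc K (.inl .w1) v v.length) e ↔ e = pc K (.inl .w1) (v ++ [none]) (v.length + 1) ∨
      e = pc K (.inl .w2) v (v.length - 1) := by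
  have ha := pc_act (K := K) (.inl .w1) (.inl .w2) v v.length .left
  have ha' := pc_act' (K := K) (.inl .w1) (.inl .w1) v
  constructor
  · rintro ⟨r, hr, rfl⟩
    rcases hr with rfl | rfl
    · exact Or.inl ha'
    · exact Or.inr ha
  · rintro (rfl | rfl)
    · exact ⟨_, Or.inl rfl, ha'.symm⟩
    · exact ⟨_, Or.inr rfl, ha.symm⟩

theorem w2_ge {v : List (Option A)} {z : ℤ} (h0 : 0 ≤ z) (h1 : z < v.length) (e) :
    Stp (pc K (.inl .w2) v z) e ↔ e = pc K (.inl .w2) v (z - 1) := by
  have hs := (wt_isSome (G := K.G) v z).2 ⟨h0, h1⟩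
  have hδ : (pad K).δ (.inl .w2) (rd (pc K (.inl .w2) v z)) =
      {(.inl .w2, rd (pc K (.inl .w2) v z), mv K .left)} := by
    show (if (rd (pc K (.inl .w2) v z) K.i0).isSome = true then _ else _) = _
    rw [pc_rd, if_pos hs]
  have ha := pc_act (K := K) (.inl .w2) (.inl .w2) v z .left
  constructor
  · rintro ⟨r, hr, rfl⟩
    rw [show (pc K (.inl .w2) v z).st = .inl .w2 from rfl, hδ] at hr
    rw [Set.mem_singleton_iff] at hr
    subst hr
    exact ha
  · rintro rfl
    refine ⟨_, ?_, ha.symm⟩
    rw [show (pc K (.inl .w2) v z).st = .inl .w2 from rfl, hδ]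
    exact rfl

theorem w2_end (v : List (Option A)) (e) :
    Stp (pc K (.inl .w2) v (-1)) e ↔ e = pc K (.inr K.start) v 0 := by
  have hs : ¬ (wt (G := K.G) v (-1)).isSome = true := by
    rw [wt_isSome]
    omega
  have hδ : (pad K).δ (.inl .w2) (rd (pc K (.inl .w2) v (-1))) =
      {(.inr K.start, rd (pc K (.inl .w2) v (-1)), mv K .right)} := by
    show (if (rd (pc K (.inl .w2) v (-1)) K.i0).isSome = true then _ else _) = _
    rw [pc_rd, if_neg hs]
  have ha := pc_act (K := K) (.inl .w2) (.inr K.start) v (-1) .right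
  constructor
  · rintro ⟨r, hr, rfl⟩
    rw [show (pc K (.inl .w2) v (-1)).st = .inl .w2 from rfl, hδ] at hr
    rw [Set.mem_singleton_iff] at hr
    subst hr
    exact ha
  · rintro rfl
    refine ⟨_, ?_, ha.symm⟩
    rw [show (pc K (.inl .w2) v (-1)).st = .inl .w2 from rfl, hδ]
    exact rfl

theorem inl_notMem (p : Ph3) (v : List (Option A)) (z : ℤ) :
    (pc K (.inl p) v z).st ∉ (pad K).acc := by
  rintro ⟨q, -, h⟩
  cases h

theorem dn_w0 (v : List (Option A)) (i : ℕ) (hi : i ≤ v.length) :
    DN i (pc K (.inl .w0) v 0) (pc K (.inl .w0) v i) := by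
  induction i with
  | zero => rfl
  | succ i ih =>
    refine (ih (by omega)).trans ⟨inl_notMem _ _ _, _, w0_lt (by omega) (by omega), ?_⟩
    show pc K (.inl .w0) v (i + 1) = pc K (.inl .w0) v ((i + 1 : ℕ) : ℤ)
    rw [Nat.cast_succ]

theorem dn_w2 (v : List (Option A)) (i : ℕ) (hi : i ≤ v.length) :
    DN i (pc K (.inl .w2) v ((i : ℤ) - 1)) (pc K (.inl .w2) v (-1)) := by
  induction i with
  | zero => rfl
  | succ i ih =>
    refine ⟨inl_notMem _ _ _, pc K (.inl .w2) v ((i : ℤ) - 1), fun e => ?_, ih (by omega)⟩
    rw [w2_ge (by omega) (by push_cast; omega)]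
    rw [show ((i + 1 : ℕ) : ℤ) - 1 - 1 = (i : ℤ) - 1 by push_cast; ring]

theorem dn_back (v : List (Option A)) :
    DN (v.length + 1) (pc K (.inl .w2) v (v.length - 1)) (pc K (.inr K.start) v 0) :=
  (dn_w2 v v.length le_rfl).trans ⟨inl_notMem _ _ _, _, w2_end v, rfl⟩

theorem init_pad (w : List A) : (pad K).init w = pc K (.inl .w0) (w.map some) 0 := by
  refine Conf.ext rfl ?_ ?_
  · funext i
    by_cases h : i = K.i0
    · subst h
      have h1 : ((pad K).init w).tp K.i0 = wordTape w := init_tp_self _ _
      rw [h1, pc_tp_self]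
      funext z
      exact (wt_map w z).symm
    · have h1 : ((pad K).init w).tp i = fun _ => none := init_tp_ne _ _ h
      rw [h1, pc_tp_ne _ _ _ h]
  · funext i
    show (0 : ℤ) = (pc K _ _ _).ps i
    by_cases h : i = K.i0
    · subst h
      rw [pc_ps_self]
    · rw [pc_ps_ne _ _ _ h]

theorem F_pc (v : List (Option A)) : (pblk K).F K.start (pc K (.inr K.start) v 0) = K.init v := by
  refine Conf.ext rfl ?_ ?_
  · funext i z
    show decP ((pc K (.inr K.start) v 0).tp i z) = (K.init v).tp i z
    by_cases h : i = K.i0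
    · subst h
      rw [pc_tp_self, init_tp_self]
      exact decP_encP _
    · rw [pc_tp_ne _ _ _ h, init_tp_ne _ _ h]
      rfl
  · funext i
    show (pc K (.inr K.start) v 0).ps i = 0
    by_cases h : i = K.i0
    · subst h
      rw [pc_ps_self]
    · rw [pc_ps_ne _ _ _ h]

theorem run_iff (v : List (Option A)) (u : ℕ) :
    (∃ d, Rch u (pc K (.inr K.start) v 0) d ∧ d.st ∈ (pad K).acc) ↔ K.Acc v u := by
  have hacc : ∀ q, (pblk K).st q ∈ (pad K).acc ↔ q ∈ K.acc := by
    intro q
    constructor
    · rintro ⟨q', h, he⟩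
      have : q = q' := Sum.inr_injective he
      rwa [this]
    · intro h
      exact ⟨q, h, rfl⟩
  have := (pblk K).acc_iff hacc (n := u) (q := K.start) (d := pc K (.inr K.start) v 0) rfl
  rw [F_pc] at this
  exact this

theorem w1_iff (s : ℕ) : ∀ v : List (Option A),
    (∃ d, Rch s (pc K (.inl .w1) v v.length) d ∧ d.st ∈ (pad K).acc) ↔
      ∃ j u, s = (v.length + j) + 2 + j + u ∧ K.Acc (v ++ List.replicate j none) u := by
  induction s with
  | zero =>
    intro v
    constructor
    · rintro ⟨d, hd, ha⟩
      have : pc K (.inl .w1) v v.length = d := hd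
      subst this
      exact absurd ha (inl_notMem _ _ _)
    · rintro ⟨j, u, h, -⟩
      omega
  | succ s ih =>
    intro v
    constructor
    · rintro ⟨d, ⟨c', h1, h2⟩, ha⟩
      rw [w1_stp] at h1
      rcases h1 with rfl | rfl
      · have hl : ((v.length : ℤ) + 1) = ((v ++ [none] : List (Option A)).length : ℤ) := by simp
        rw [hl] at h2
        obtain ⟨j, u, hs, hK⟩ := (ih (v ++ [none])).1 ⟨d, h2, ha⟩
        refine ⟨j + 1, u, ?_, ?_⟩
        · rw [hs]
          simp only [List.length_append, List.length_cons, List.length_nil]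
          omega
        · rw [List.append_assoc] at hK
          exact hK
      · obtain ⟨u, hs, h3⟩ := (dn_back v).cut h2 ha
        refine ⟨0, u, by omega, ?_⟩
        rw [List.replicate_zero, List.append_nil]
        exact (run_iff v u).1 ⟨d, h3, ha⟩
    · rintro ⟨j, u, hs, hK⟩
      cases j with
      | zero =>
        rw [List.replicate_zero, List.append_nil] at hK
        obtain ⟨d, h3, ha⟩ := (run_iff v u).2 hK
        refine ⟨d, ⟨_, (w1_stp v _).2 (Or.inr rfl), ?_⟩, ha⟩
        have : s = v.length + 1 + u := by omega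
        rw [this]
        exact (dn_back v).rch.trans h3
      | succ j =>
        obtain ⟨d, h3, ha⟩ := (ih (v ++ [none])).2 ⟨j, u, by
          simp only [List.length_append, List.length_cons, List.length_nil]
          omega, by
          rw [List.append_assoc]
          exact hK⟩
        refine ⟨d, ⟨_, (w1_stp v _).2 (Or.inl rfl), ?_⟩, ha⟩
        have hl : ((v.length : ℤ) + 1) = ((v ++ [none] : List (Option A)).length : ℤ) := by simp
        rw [hl]
        exact h3

theorem pad_acc (w : List A) (s : ℕ) : (pad K).Acc w s ↔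
    ∃ j u, s = 2 * w.length + 3 + 2 * j + u ∧ K.Acc (w.map some ++ List.replicate j none) u := by
  unfold Acc
  rw [init_pad]
  have hD : DN (w.length + 1) (pc K (.inl .w0) (w.map some) 0)
      (pc K (.inl .w1) (w.map some) (w.map some).length) := by
    have h1 := dn_w0 (K := K) (w.map some) (w.map some).length le_rfl
    have h2 := h1.trans (e := pc K (.inl .w1) (w.map some) (w.map some).length) (n := 1)
      ⟨inl_notMem _ _ _, _, w0_end _, rfl⟩
    rwa [List.length_map] at h2 ⊢
  constructor
  · rintro ⟨d, hd, ha⟩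
    obtain ⟨u, rfl, h1⟩ := hD.cut hd ha
    obtain ⟨j, u', hu, hK⟩ := (w1_iff u (w.map some)).1 ⟨d, h1, ha⟩
    rw [List.length_map] at hu
    exact ⟨j, u', by omega, hK⟩
  · rintro ⟨j, u, rfl, hK⟩
    obtain ⟨d, h1, ha⟩ := (w1_iff _ (w.map some)).2 ⟨j, u, rfl, hK⟩
    refine ⟨d, ?_, ha⟩
    have := hD.rch.trans h1
    rw [List.length_map] at this
    have he : 2 * w.length + 3 + 2 * j + u = w.length + 1 + (w.length + j + 2 + j + u) := by omega
    rw [he]
    exact this

end GM

/-- **Guessing a padding.** -/
theorem exists_pad {A : Type} (K : Machine (Option A)) :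
    ∃ M : Machine A, ∀ w s, AcceptsIn M w s ↔
      ∃ j u, s = 2 * w.length + 3 + 2 * j + u ∧
        AcceptsIn K (w.map some ++ List.replicate j none) u := by
  obtain ⟨M, hM⟩ := GM.exists_machine (GM.pad (GM.ofMachine K))
  refine ⟨M, fun w s => ?_⟩
  rw [hM, GM.pad_acc]
  simp only [GM.acc_ofMachine]

end Pool.Agent.H59.Clock
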