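import Pool.Agent.H59.Clock.NegC

/-!
The positive case: every machine obeying the time bound `tX x` obeys `G`.
-/

namespace Pool.Agent.H59.Clock

open Pool.Agent.Lead.NTM Pool.Agent.H71.NT Pool.Agent.H27.LD Encodable Denumerable
open Pool.Agent.H83.NT (P3 Pl words mem_words accv AL AL_iff AccL accv_iff Coding exists_coding
  exists_accL exists_Pl exists_time_bound)

/-- **The positive case.** -/
theorem obeys_G (Z : Dat) {x : ℕ} (hx : x ∈ Z.W.set) {A : Type} [Finite A] {M : Machine A}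
    (hM : Obeys M (Z.tX x)) : Obeys M Z.G := by
  classical
  obtain ⟨m, ⟨E⟩⟩ := exists_coding A
  obtain ⟨p, hp⟩ := hM
  obtain ⟨D, hD⟩ := exists_accL M E.e E.inj
  obtain ⟨d, hd⟩ := exists_Pl p
  obtain ⟨i, hi⟩ : ∃ i, i = encode D := ⟨_, rfl⟩
  have hAL : ∀ w s, AL i (w.map E.e) s = true ↔ AcceptsIn M w s := by
    intro w s
    rw [AL_iff, hi, ofNat_encode]
    exact (hD w s).symm
  have h2 : ∀ (w : List A) (s : ℕ), AL i (w.map E.e) s = true →
      accv (i, d) (w.map E.e) (Z.tX x w.length) = true := by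
    intro w s hs
    rw [accv_iff]
    obtain ⟨s', h3, h4⟩ := hp w ⟨s, (hAL w s).1 hs⟩
    exact ⟨s', h3.trans (hd _), AL_iff.1 ((hAL w s').2 h4)⟩
  set e := Nat.pair m (Nat.pair i d) with he
  have hfin : ({r | aa r ≤ e ∧ Z.WR x r} : Set ℕ).Finite := by
    have h3 : ({r | aa r ≤ e ∧ Z.WR x r} : Set ℕ) =
        ⋃ a ∈ {a : ℕ | a ≤ e}, {r | aa r = a ∧ Z.WR x r} := by
      ext r
      simp
    rw [h3]
    exact (Set.finite_le_nat e).biUnion fun a _ => Z.finite_WR (hx a)
  obtain ⟨R, hR⟩ := hfin.bddAbove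
  obtain ⟨K, hK⟩ := exists_time_bound M (max 2 (sN Z.τ (R + 1)))
  have hpl : ∀ v, ((Polynomial.X + Polynomial.C d) ^ d + Polynomial.C K : Polynomial ℕ).eval v =
      Pl d v + K := by
    intro v
    unfold Pl
    simp
  refine ⟨(Polynomial.X + Polynomial.C d) ^ d + Polynomial.C K, fun w hw => ?_⟩
  rw [hpl]
  rcases Nat.lt_or_ge w.length (max 2 (sN Z.τ (R + 1))) with hlt | hge
  · obtain ⟨s, h3, h4⟩ := hK w hlt hw
    exact ⟨s, by omega, h4⟩
  · obtain ⟨s0, hs0⟩ := hw
    have h3 := h2 w s0 ((hAL w s0).2 hs0)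
    have key : accv (i, d) (w.map E.e) (Z.G w.length) = true := by
      obtain ⟨r, hr1, hr2⟩ := Z.exists_block (n := w.length) (by omega)
      by_cases hRa : Z.Ra x r
      · rw [Z.tX_of hr1 hr2 hRa] at h3
        by_cases hea : e < aa r
        · by_contra h4
          refine Z.not_act E h2 r ⟨hRa.1, hea, w.length, hr1, hr2, w.map E.e, ?_, ?_, ?_⟩
          · simp only [Nat.unpair_pair]
            rw [mem_words]
            exact ⟨by simp, by simpa using fun a _ => E.lt a⟩
          · simp only [Nat.unpair_pair]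
            exact h3
          · simp only [Nat.unpair_pair]
            simpa using h4
        · have h4 : r ≤ R := hR ⟨by omega, hRa.1⟩
          have h5 : sN Z.τ (r + 1) ≤ sN Z.τ (R + 1) := Z.sN_mono.monotone (by omega)
          omega
      · rwa [Z.tX_of_not hr1 hr2 hRa] at h3
    rw [accv_iff] at key
    obtain ⟨s, h4, h5⟩ := key
    exact ⟨s, by omega, (hAL w s).1 (AL_iff.2 h5)⟩

/-- The positive case: clockability. -/
theorem clockable_tX (Z : Dat) (hG : Honest Z.G) {x : ℕ} (hx : x ∈ Z.W.set) (A : Type)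
    [Finite A] : Clockable A (Z.tX x) := by
  obtain ⟨C, τ, pG, hC, hτ⟩ := hG
  intro M hM
  obtain ⟨N, hN, hc⟩ := clockable_of_honest (A := A) hC hτ Z.Gid M (obeys_G Z hx hM)
  exact ⟨N, hN.mono Polynomial.X fun n => by
    rw [Polynomial.eval_X]
    exact Z.G_le_tX x n, hc⟩

end Pool.Agent.H59.Clock
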