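import Pool.Agent.H59.Clock.GM

/-!
The union of two machines.
-/

namespace Pool.Agent.H59.Clock

open Pool.Agent.Lead.NTM

namespace GM

variable {A : Type}

/-- Decoding of a symbol: the letters and the extra letters of the left machine. -/
def decL {G₁ G₂ : Type} : Option (A ⊕ (G₁ ⊕ G₂)) → Option (A ⊕ G₁)
  | some (.inl a) => some (.inl a)
  | some (.inr (.inl g)) => some (.inr g)
  | _ => none

/-- Encoding of a symbol. -/
def encL {G₁ G₂ : Type} : Option (A ⊕ G₁) → Option (A ⊕ (G₁ ⊕ G₂))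
  | some (.inl a) => some (.inl a)
  | some (.inr g) => some (.inr (.inl g))
  | none => none

/-- Decoding of a symbol: the letters and the extra letters of the right machine. -/
def decR {G₁ G₂ : Type} : Option (A ⊕ (G₁ ⊕ G₂)) → Option (A ⊕ G₂)
  | some (.inl a) => some (.inl a)
  | some (.inr (.inr g)) => some (.inr g)
  | _ => none

/-- Encoding of a symbol. -/
def encR {G₁ G₂ : Type} : Option (A ⊕ G₂) → Option (A ⊕ (G₁ ⊕ G₂))
  | some (.inl a) => some (.inl a)
  | some (.inr g) => some (.inr (.inr g))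
  | none => none

theorem decL_encL {G₁ G₂ : Type} (x : Option (A ⊕ G₁)) :
    decL (encL x : Option (A ⊕ (G₁ ⊕ G₂))) = x := by
  rcases x with _ | (a | g) <;> rfl

theorem decR_encR {G₁ G₂ : Type} (x : Option (A ⊕ G₂)) :
    decR (encR x : Option (A ⊕ (G₁ ⊕ G₂))) = x := by
  rcases x with _ | (a | g) <;> rfl

theorem decL_wordTape {G₁ G₂ : Type} (w : List A) (z : ℤ) :
    decL (wordTape w z : Option (A ⊕ (G₁ ⊕ G₂))) = wordTape w z := by
  unfold wordTape
  split_ifs
  · cases w[z.toNat]? <;> rfl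
  · rfl

theorem decR_wordTape {G₁ G₂ : Type} (w : List A) (z : ℤ) :
    decR (wordTape w z : Option (A ⊕ (G₁ ⊕ G₂))) = wordTape w z := by
  unfold wordTape
  split_ifs
  · cases w[z.toNat]? <;> rfl
  · rfl

variable (P₁ P₂ : GM A)

open Classical in
/-- the tapes of the second machine -/
noncomputable def utp (i : P₂.ι) : P₁.ι ⊕ P₂.ι := if i = P₂.i0 then .inl P₁.i0 else .inr i

/-- The effect of an action of a block. -/
noncomputable def lift {ι κ Q Q' X Y : Type} (st : Q → Q') (tp : ι → κ) (enc : X → Y)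
    (x : κ → Y) (r : Q × (ι → X) × (ι → Move)) : Q' × (κ → Y) × (κ → Move) :=
  (st r.1, (fun j => ovr tp (fun i => enc (r.2.1 i)) (x j) j), fun j => ovr tp r.2.2 Move.stay j)

/-- The union of two machines. -/
noncomputable def union : GM A where
  ι := P₁.ι ⊕ P₂.ι
  finι := by
    have := P₁.finι
    have := P₂.finι
    infer_instance
  i0 := .inl P₁.i0
  Q := Option (P₁.Q ⊕ P₂.Q)
  finQ := by
    have := P₁.finQ
    have := P₂.finQ
    infer_instance
  G := P₁.G ⊕ P₂.G
  finG := by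
    have := P₁.finG
    have := P₂.finG
    infer_instance
  start := none
  acc := {q | (∃ q₁ ∈ P₁.acc, q = some (.inl q₁)) ∨ ∃ q₂ ∈ P₂.acc, q = some (.inr q₂)}
  δ := fun q x => match q with
    | none => {(some (.inl P₁.start), x, fun _ => .stay), (some (.inr P₂.start), x, fun _ => .stay)}
    | some (.inl q) => {r | ∃ r' ∈ P₁.δ q (fun i => decL (x (.inl i))),
        r = lift (fun q => some (.inl q)) Sum.inl encL x r'}
    | some (.inr q) => {r | ∃ r' ∈ P₂.δ q (fun i => decR (x (utp P₁ P₂ i))),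
        r = lift (fun q => some (.inr q)) (utp P₁ P₂) encR x r'}

theorem utp_injective : Function.Injective (utp P₁ P₂) := by
  intro i j h
  unfold utp at h
  split_ifs at h with h1 h2
  · rw [h1, h2]
  · exact Sum.inr_injective h

/-- The first block. -/
noncomputable def ublk₁ : Blk P₁ (union P₁ P₂) where
  st := fun q => some (.inl q)
  tp := Sum.inl
  inj := Sum.inl_injective
  enc := encL
  dec := decL
  dec_enc := decL_encL
  hδ := fun _ _ _ => Iff.rfl

/-- The second block. -/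
noncomputable def ublk₂ : Blk P₂ (union P₁ P₂) where
  st := fun q => some (.inr q)
  tp := utp P₁ P₂
  inj := utp_injective P₁ P₂
  enc := encR
  dec := decR
  dec_enc := decR_encR
  hδ := fun _ _ _ => Iff.rfl

theorem union_stp_none {c d : (union P₁ P₂).Conf} (hc : c.st = none) :
    Stp c d ↔ d = ⟨some (.inl P₁.start), c.tp, c.ps⟩ ∨ d = ⟨some (.inr P₂.start), c.tp, c.ps⟩ := by
  have key : ∀ q : Option (P₁.Q ⊕ P₂.Q), act c (q, rd c, fun _ => Move.stay) = ⟨q, c.tp, c.ps⟩ := by
    intro q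
    refine Conf.ext rfl ?_ ?_
    · funext i
      exact Function.update_eq_self _ _
    · funext i
      exact add_zero _
  unfold Stp
  rw [hc]
  constructor
  · rintro ⟨r, hr, rfl⟩
    rcases hr with rfl | rfl
    · left; exact key _
    · right; exact key _
  · rintro (rfl | rfl)
    · exact ⟨_, Or.inl rfl, (key _).symm⟩
    · exact ⟨_, Or.inr rfl, (key _).symm⟩

theorem union_acc (w : List A) (s : ℕ) :
    (union P₁ P₂).Acc w s ↔ ∃ u, s = u + 1 ∧ (P₁.Acc w u ∨ P₂.Acc w u) := by
  have hacc₁ : ∀ q, (ublk₁ P₁ P₂).st q ∈ (union P₁ P₂).acc ↔ q ∈ P₁.acc := by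
    intro q
    constructor
    · rintro (⟨q', h, he⟩ | ⟨q', -, he⟩)
      · have : q = q' := by simpa [ublk₁] using he
        rwa [this]
      · exact absurd he (by simp [ublk₁])
    · intro h
      exact Or.inl ⟨q, h, rfl⟩
  have hacc₂ : ∀ q, (ublk₂ P₁ P₂).st q ∈ (union P₁ P₂).acc ↔ q ∈ P₂.acc := by
    intro q
    constructor
    · rintro (⟨q', -, he⟩ | ⟨q', h, he⟩)
      · exact absurd he (by simp [ublk₂])
      · have : q = q' := by simpa [ublk₂] using he
        rwa [this]
    · intro h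
      exact Or.inr ⟨q, h, rfl⟩
  have hF₁ : (ublk₁ P₁ P₂).F P₁.start ⟨some (.inl P₁.start), ((union P₁ P₂).init w).tp,
      ((union P₁ P₂).init w).ps⟩ = P₁.init w := by
    refine Conf.ext rfl ?_ rfl
    funext i z
    show decL (((union P₁ P₂).init w).tp (Sum.inl i) z) = (P₁.init w).tp i z
    by_cases hi : i = P₁.i0
    · subst hi
      have h1 : ((union P₁ P₂).init w).tp (Sum.inl P₁.i0) = wordTape w := init_tp_self _ _
      rw [h1, init_tp_self]
      exact decL_wordTape w z
    · have h1 : ((union P₁ P₂).init w).tp (Sum.inl i) = fun _ => none :=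
        init_tp_ne _ _ fun h => hi (Sum.inl_injective h)
      rw [h1, init_tp_ne _ _ hi]
      rfl
  have hF₂ : (ublk₂ P₁ P₂).F P₂.start ⟨some (.inr P₂.start), ((union P₁ P₂).init w).tp,
      ((union P₁ P₂).init w).ps⟩ = P₂.init w := by
    refine Conf.ext rfl ?_ rfl
    funext i z
    show decR (((union P₁ P₂).init w).tp (utp P₁ P₂ i) z) = (P₂.init w).tp i z
    by_cases hi : i = P₂.i0
    · subst hi
      have h0 : utp P₁ P₂ P₂.i0 = Sum.inl P₁.i0 := if_pos rfl
      have h1 : ((union P₁ P₂).init w).tp (Sum.inl P₁.i0) = wordTape w := init_tp_self _ _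
      rw [h0, h1, init_tp_self]
      exact decR_wordTape w z
    · have h0 : utp P₁ P₂ i = Sum.inr i := if_neg hi
      have h1 : ((union P₁ P₂).init w).tp (Sum.inr i) = fun _ => none :=
        init_tp_ne _ _ fun h => by cases h
      rw [h0, h1, init_tp_ne _ _ hi]
      rfl
  have hb₁ := fun u => (ublk₁ P₁ P₂).acc_iff hacc₁ (n := u) (q := P₁.start)
    (d := ⟨some (.inl P₁.start), ((union P₁ P₂).init w).tp, ((union P₁ P₂).init w).ps⟩) rfl
  have hb₂ := fun u => (ublk₂ P₁ P₂).acc_iff hacc₂ (n := u) (q := P₂.start)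
    (d := ⟨some (.inr P₂.start), ((union P₁ P₂).init w).tp, ((union P₁ P₂).init w).ps⟩) rfl
  rw [hF₁] at hb₁
  rw [hF₂] at hb₂
  constructor
  · rintro ⟨d, hd, ha⟩
    cases s with
    | zero =>
      have : (union P₁ P₂).init w = d := hd
      subst this
      rcases ha with ⟨q', -, he⟩ | ⟨q', -, he⟩
      · exact absurd he (by simp [init, union])
      · exact absurd he (by simp [init, union])
    | succ s =>
      obtain ⟨c', h1, h2⟩ := hd
      rw [union_stp_none P₁ P₂ rfl] at h1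
      refine ⟨s, rfl, ?_⟩
      rcases h1 with rfl | rfl
      · exact Or.inl ((hb₁ s).1 ⟨d, h2, ha⟩)
      · exact Or.inr ((hb₂ s).1 ⟨d, h2, ha⟩)
  · rintro ⟨u, rfl, h | h⟩
    · obtain ⟨d, h1, h2⟩ := (hb₁ u).2 h
      exact ⟨d, ⟨_, (union_stp_none P₁ P₂ rfl).2 (Or.inl rfl), h1⟩, h2⟩
    · obtain ⟨d, h1, h2⟩ := (hb₂ u).2 h
      exact ⟨d, ⟨_, (union_stp_none P₁ P₂ rfl).2 (Or.inr rfl), h1⟩, h2⟩

end GM

/-- **Union of machines.** -/
theorem exists_union {A : Type} (M₁ M₂ : Machine A) :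
    ∃ M : Machine A, ∀ w s, AcceptsIn M w s ↔
      ∃ u, s = u + 1 ∧ (AcceptsIn M₁ w u ∨ AcceptsIn M₂ w u) := by
  obtain ⟨M, hM⟩ := GM.exists_machine (GM.union (GM.ofMachine M₁) (GM.ofMachine M₂))
  refine ⟨M, fun w s => ?_⟩
  rw [hM, GM.union_acc]
  simp only [GM.acc_ofMachine]

end Pool.Agent.H59.Clock
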