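import Pool.Agent.H71.NT.Near2
import Pool.Agent.H59.Clock.HClock

/-!
Failure of clockability just above an honest time bound.
-/

namespace Pool.Agent.H59.Clock

open Pool.Agent.H79.Cx Pool.Agent.Lead.NTM Pool.Agent.H83 Pool.Agent.H71.NT

/-- Verification with a long certificate. -/
def vw (C G : Desc) (x : ℕ × List Bool) : Bool :=
  verGB C G x && !decide (x.2.length ≤ pw ((decLL (parse x.2)).getD 3 []).length x.2.length
    (kk ((decLL (parse x.2)).drop 4).length))

theorem pt_vw (C G : Desc) : PT (vw C G) := by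
  have h1 : PT fun x : ℕ × List Bool => verGB C G x := pt_verGB C G
  show PT fun x => vw C G x
  unfold vw
  fun_prop

theorem vw_iff {G : Desc} {τ : ℕ → ℕ} (hG : IsTime G τ) {C : Desc} {n : ℕ} {y : List Bool} :
    vw C G (n, y) = true ↔ verG C G n (decLL (parse y)) = true ∧
      τ n ^ kk ((decLL (parse y)).drop 4).length < y.length := by
  unfold vw
  rw [Bool.and_eq_true, Bool.not_eq_true', decide_eq_false_iff_not]
  refine and_congr_right fun h => ?_
  have h' : verG C G n (decLL (parse y)) = true := h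
  rw [verG_iff hG] at h'
  have h1 := hG.length h'.2.2.2.2.2.1 h'.2.2.2.2.2.2.1
  have hn : 1 ≤ τ n := by
    have h2 := two_le_sN (τ := τ) ((decLL (parse y)).drop 4).length
    have h3 := chn_eq hG h'.1
    have h4 := hG.2 n
    omega
  simp only [h1]
  rw [le_pw_iff _ _ _ hn]
  omega

/-- Small certificates. -/
theorem exists_certG' {G : Desc} {τ : ℕ → ℕ} (hG : IsTime G τ) (C : Desc) : ∃ Q : Polynomial ℕ, ∀ n r, sN τ r = n →
    Good C (kk r) n → (∃ h : List ℕ, h.length ≤ τ n ^ kk r ∧ (dd r).valid n h = true ∧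
      (dd r).acc h = true) →
    ∃ c : List (List ℕ), verG C G n c = true ∧ (c.drop 4).length = r ∧
      (cd c).length ≤ Q.eval (τ n + τ n ^ kk r) := by
  obtain ⟨R, hR⟩ := (PT.dd (α := ℕ) PT.id).size_le
  refine ⟨9 + 2 * Polynomial.X + (1 + Polynomial.X * Polynomial.C (2 * C.nr + 2)) +
    (1 + Polynomial.X * (2 * (R.comp (2 * Polynomial.X + 1)) + 2)) +
    (1 + Polynomial.X * Polynomial.C (2 * G.nr + 2)) +
    (1 + Polynomial.X * (1 + (1 + Polynomial.X * Polynomial.C (2 * G.nr + 2)))), ?_⟩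
  rintro n r hr ⟨N, hN, h1, hl1, hv1, ha1⟩ ⟨h2, hl2, hv2, ha2⟩
  obtain ⟨h3, hl3, hv3, ha3⟩ := hG.exists n
  obtain ⟨l, hl, hc, hx⟩ := exists_chain hG n r hr.le
  refine ⟨[N] :: h1 :: h2 :: h3 :: l, ?_, hl, ?_⟩
  · rw [verG_iff hG]
    have hd : ([N] :: h1 :: h2 :: h3 :: l).drop 4 = l := rfl
    rw [hd, hl]
    exact ⟨hc.trans hr, hN, hl1, hv1, ha1, hv3, ha3, hl2, hv2, ha2⟩
  · rw [length_cd]
    have hrn : r ≤ n := by
      rw [← hr]
      exact (sN_strictMono hG).id_le r
    have hnτ := hG.2 n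
    have e1 : sz ([N] :: h1 :: h2 :: h3 :: l) = 1 + (1 + (2 * N + 1) + 1) +
        (1 + sz h1 + (1 + sz h2 + (1 + sz h3 + sz l))) := by
      simp only [sz_cons, sz_nil, sz_nat]
    have e2 : sz h1 ≤ 1 + n * (2 * C.nr + 2) :=
      (sz_hist_le (Desc.lt_of_valid hv1)).trans
        (Nat.add_le_add_left (Nat.mul_le_mul_right _ hl1) _)
    have e3 : (dd r).nr ≤ R.eval (2 * n + 1) := by
      have h3 := hR r
      have h4 : (dd r).length ≤ sz (dd r) := length_le_sz _
      have h5 : R.eval (sz r) ≤ R.eval (2 * n + 1) := eval_mono R (by rw [sz_nat]; omega)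
      have h6 : (dd r).nr = (dd r).length - 1 := rfl
      omega
    have e4 : sz h2 ≤ 1 + τ n ^ kk r * (2 * R.eval (2 * n + 1) + 2) := by
      refine (sz_hist_le (Desc.lt_of_valid hv2)).trans (Nat.add_le_add_left ?_ _)
      exact Nat.mul_le_mul hl2 (by omega)
    have e4' : sz h3 ≤ 1 + τ n * (2 * G.nr + 2) := by
      refine (sz_hist_le (Desc.lt_of_valid hv3)).trans (Nat.add_le_add_left ?_ _)
      rw [hl3]
    have e4'' : sz l ≤ 1 + r * (1 + (1 + n * (2 * G.nr + 2))) := by
      rw [← hl]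
      refine sz_list_le l _ fun x hxm => ?_
      obtain ⟨hx1, hx2⟩ := hx x hxm
      exact (sz_hist_le hx2).trans (Nat.add_le_add_left (Nat.mul_le_mul_right _ hx1) _)
    set X := τ n + τ n ^ kk r with hX
    have e5 : n * (2 * C.nr + 2) ≤ X * (2 * C.nr + 2) := Nat.mul_le_mul_right _ (by omega)
    have e6 : τ n ^ kk r * (2 * R.eval (2 * n + 1) + 2) ≤ X * (2 * R.eval (2 * X + 1) + 2) := by
      have h7 : R.eval (2 * n + 1) ≤ R.eval (2 * X + 1) := eval_mono R (by omega)
      exact Nat.mul_le_mul (by omega) (by omega)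
    have e7 : τ n * (2 * G.nr + 2) ≤ X * (2 * G.nr + 2) := Nat.mul_le_mul_right _ (by omega)
    have e8 : r * (1 + (1 + n * (2 * G.nr + 2))) ≤ X * (1 + (1 + X * (2 * G.nr + 2))) := by
      have h7 : n * (2 * G.nr + 2) ≤ X * (2 * G.nr + 2) := Nat.mul_le_mul_right _ (by omega)
      exact Nat.mul_le_mul (by omega) (by omega)
    simp only [Polynomial.eval_add, Polynomial.eval_mul, Polynomial.eval_ofNat,
      Polynomial.eval_one, Polynomial.eval_X, Polynomial.eval_C, Polynomial.eval_comp]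
    rw [e1]
    omega


/-- **Failure of clockability just above an honest time bound.** -/
theorem window {G h : ℕ → ℕ} (hGc : Computable G) (hGm : Monotone G) (hid : ∀ n, n ≤ G n)
    (hGh : Honest G) (hc : Computable h) (hm : Monotone h) (hu : ∀ k, ∃ n, k ≤ h n)
    (h1 : ∀ n, 1 ≤ h n) :
    ∃ t : ℕ → ℕ, Computable t ∧ Monotone t ∧ (∀ n, G n ≤ t n) ∧ (∀ n, t n ≤ G n ^ h n) ∧
      (∃ᶠ n in Filter.atTop, t n = G n) ∧
      ∀ (A : Type) [Finite A] [Nonempty A], ¬ Clockable A t := by
  classical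
  obtain ⟨MG, τ, pG, hMG, hτG⟩ := hGh
  have hτc : Computable τ := computable_time hMG
  have hτid : ∀ n, n ≤ τ n := fun n => (hid n).trans (hτG n).1
  have hD : IsTime (descM MG ()) τ :=
    ⟨fun n s => (acceptsIn_iff_desc MG () n s).symm.trans (hMG n s), hτid⟩
  have hs : StrictMono (sN τ) := sN_strictMono hD
  obtain ⟨e, he⟩ := exists_pow_bound' pG
  have hre : REPred fun z : ℕ => e * z.unpair.1 ≤ h z.unpair.2 := by
    refine ComputablePred.to_re ?_
    have hf : Computable fun z : ℕ => decide (e * z.unpair.1 ≤ h z.unpair.2) :=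
      (Primrec.nat_le.decide.to_comp).comp
        (Primrec.nat_mul.to_comp.comp (Computable.const e)
          (Computable.fst.comp Primrec.unpair.to_comp))
        (hc.comp (Computable.snd.comp Primrec.unpair.to_comp))
    exact ⟨inferInstance, hf⟩
  obtain ⟨C, hC⟩ := exists_desc_of_re hre
  have hgood : ∀ {k n : ℕ}, Good C k n → e * k ≤ h n := by
    rintro k n ⟨N, hN, x, -, hv, ha⟩
    have h2 := (hC (Nat.pair k N)).2 ⟨x, hv, ha⟩
    rw [Nat.unpair_pair] at h2
    exact h2.trans (hm hN)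
  obtain ⟨T, hT⟩ := exists_guess_machine (pt_verGB C (descM MG ()))
  obtain ⟨Q, hQ⟩ := exists_certG hD C
  -- decidability
  have hV : Computable fun n => @decide (VG C τ n) (Classical.propDecidable _) := by
    obtain ⟨M, hM, hM'⟩ := hT Unit
    have hB : Computable fun n : ℕ => T.eval (n + Q.eval (τ n + τ n ^ n)) := by
      refine (primrec_polyEval T).to_comp.comp (Primrec.nat_add.to_comp.comp Computable.id ?_)
      exact (primrec_polyEval Q).to_comp.comp (Primrec.nat_add.to_comp.comp hτc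
        (primrec_pow.to_comp.comp hτc Computable.id))
    have hW : Primrec fun p : ℕ × ℕ =>
        decide (∃ s ≤ p.2, AcceptsIn M (List.replicate p.1 ()) s) :=
      (primrecPred_acceptsWithin M ()).decide
    refine (hW.to_comp.comp (Computable.id.pair hB)).of_eq fun n => ?_
    have hlen : (List.replicate n ()).length = n := List.length_replicate
    refine decide_eq_decide.2 ⟨?_, ?_⟩
    · rintro ⟨s, -, hs⟩
      have h2 := (hM (List.replicate n ())).1 ⟨s, hs⟩
      rw [hlen, exists_verGB_iff hD] at h2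
      exact h2
    · rintro ⟨r, hr, hg, hh⟩
      obtain ⟨y, hy, hyl⟩ := hQ n r hr hg hh
      obtain ⟨s, hs', ha⟩ := hM' (List.replicate n ()) y (by rw [hlen]; exact hy)
      refine ⟨s, hs'.trans ?_, ha⟩
      rw [hlen]
      refine eval_mono T (Nat.add_le_add_left (hyl.trans (eval_mono Q ?_)) _)
      have h2 : 0 < τ n := by
        have h3 := two_le_sN (τ := τ) r
        have h4 := hτid n
        omega
      refine Nat.add_le_add_left (Nat.pow_le_pow_right h2 ?_) _
      refine (kk_le r).trans ?_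
      rw [← hr]
      exact hs.id_le r
  refine ⟨tt2 τ C G, computable_tt2 hτc hGc hV, monotone_tt2 hGm, fun n => le_max_left _ _,
    ?_, ?_, ?_⟩
  · -- upper bound
    intro n
    refine max_le ?_ (WT2_le fun m hmn => ?_)
    · rcases Nat.eq_zero_or_pos (G n) with h0 | h0
      · omega
      · calc G n = G n ^ 1 := (pow_one _).symm
          _ ≤ G n ^ h n := Nat.pow_le_pow_right h0 (h1 n)
    · by_cases hv : VG C τ m
      · obtain ⟨r, hr, hg, -⟩ := id hv
        subst hr
        rw [wt2_of hs hv]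
        have h2 := two_le_sN (τ := τ) r
        have h3 := hid (sN τ r)
        calc τ (sN τ r) ^ kk r ≤ (G (sN τ r) ^ e) ^ kk r :=
              Nat.pow_le_pow_left ((hτG _).2.trans (he _ (by omega))) _
          _ = G (sN τ r) ^ (e * kk r) := (pow_mul _ _ _).symm
          _ ≤ G (sN τ r) ^ h (sN τ r) := Nat.pow_le_pow_right (by omega) (hgood hg)
          _ ≤ G (sN τ r) ^ h n := Nat.pow_le_pow_right (by omega) (hm hmn)
          _ ≤ G n ^ h n := Nat.pow_le_pow_left (hGm hmn) _
      · rw [wt2_of_not hv]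
        exact Nat.zero_le _
  · -- equality infinitely often
    rw [Filter.frequently_atTop]
    intro B
    refine ⟨sN τ (B + 1) - 1, ?_, tt2_pred hid hs _⟩
    have := hs.id_le (B + 1)
    simp only [id] at this
    show B ≤ _
    omega
  rintro A _ ⟨a⟩ hclock
  obtain ⟨T', hT'⟩ := exists_guess (pt_vw C (descM MG ()))
  obtain ⟨Q', hQ'⟩ := exists_certG' hD C
  obtain ⟨ML, hML, hML'⟩ := hT' A
  -- the language of `ML`
  have hacc : ∀ w : List A, VG C τ w.length → ∃ r, sN τ r = w.length ∧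
      ∃ s ≤ T'.eval (w.length + (Q'.eval (τ w.length + τ w.length ^ kk r) +
        (τ w.length ^ kk r + 1))), AcceptsIn ML w s := by
    rintro w ⟨r, hr, hg, hh⟩
    obtain ⟨c, hc, hcr, hcl⟩ := hQ' _ r hr hg hh
    have hv : vw C (descM MG ()) (w.length, cd c ++ List.replicate (τ w.length ^ kk r + 1) false) =
        true := by
      rw [vw_iff hD]
      have h0 : decLL (parse (cd c ++ List.replicate (τ w.length ^ kk r + 1) false)) = c := by
        have h1 : parse (cd c ++ List.replicate (τ w.length ^ kk r + 1) false) = Enc.enc c :=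
          parse_enc _ _
        rw [h1, decLL_enc]
      rw [h0, hcr]
      refine ⟨hc, ?_⟩
      rw [List.length_append, List.length_replicate]
      omega
    obtain ⟨s, hs', ha⟩ := hML' w _ hv
    refine ⟨r, hr, s, hs'.trans (eval_mono T' ?_), ha⟩
    rw [List.length_append, List.length_replicate]
    omega
  have hslow : ∀ (w : List A) (s r : ℕ), sN τ r = w.length → AcceptsIn ML w s →
      VG C τ w.length ∧ τ w.length ^ kk r < s := by
    intro w s r hr ha
    obtain ⟨y, hy, hyv⟩ := hML w s ha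
    rw [vw_iff hD] at hyv
    have h2 : VG C τ w.length := vG_of_verGB hD C (y := y) hyv.1
    refine ⟨h2, ?_⟩
    have h3 := (verG_iff hD C _ _).1 hyv.1
    have h4 := chn_eq hD h3.1
    have h5 : ((decLL (parse y)).drop 4).length = r := hs.injective (h4.trans hr.symm)
    rw [h5] at hyv
    omega
  have hML0 : Obeys ML (tt2 τ C G) := by
    refine ⟨T'.comp (Polynomial.X + (Q'.comp (pG.comp Polynomial.X + Polynomial.X) +
      (Polynomial.X + 1))), ?_⟩
    rintro w ⟨s0, hs0⟩
    obtain ⟨y0, -, hy0⟩ := hML w s0 hs0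
    rw [vw_iff hD] at hy0
    have hvg : VG C τ w.length := vG_of_verGB hD C (y := y0) hy0.1
    obtain ⟨r, hr, s, hs', ha⟩ := hacc w hvg
    refine ⟨s, hs'.trans ?_, ha⟩
    simp only [Polynomial.eval_comp, Polynomial.eval_add, Polynomial.eval_X,
      Polynomial.eval_one]
    have hG : G w.length ≤ tt2 τ C G w.length := le_max_left _ _
    have h2 : w.length ≤ tt2 τ C G w.length := (hid _).trans hG
    have h3 : τ w.length ^ kk r ≤ tt2 τ C G w.length := by
      refine le_trans ?_ ((wt2_le_WT2 w.length).trans (le_max_right _ _))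
      have hw' : VG C τ (sN τ r) := by rw [hr]; exact hvg
      rw [← hr, wt2_of hs hw']
    have h4 : τ w.length ≤ pG.eval (tt2 τ C G w.length) := (hτG _).2.trans (eval_mono pG hG)
    exact eval_mono T' (Nat.add_le_add h2 (Nat.add_le_add (eval_mono Q' (Nat.add_le_add h4 h3))
      (Nat.add_le_add_right h3 1)))
  obtain ⟨M, ⟨p, hp⟩, hMtot, hMclk⟩ := hclock ML hML0
  obtain ⟨k, hk⟩ := exists_pow_bound' p
  obtain ⟨N, hN⟩ := hu (e * k)
  obtain ⟨x, hxv, hxa⟩ := (hC (Nat.pair k N)).1 (by rw [Nat.unpair_pair]; exact hN)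
  obtain ⟨r, hrB, hrk, hrd⟩ := exists_index_desc k (descM M a) (max N x.length)
  set n := sN τ r with hn
  have hrn : r ≤ n := hs.id_le r
  have hg : Good C (kk r) n := by
    rw [hrk]
    exact ⟨N, by omega, x, by omega, hxv, hxa⟩
  have hVn : VG C τ n ↔ ∃ s ≤ τ n ^ k, AcceptsIn M (List.replicate n a) s := by
    constructor
    · rintro ⟨i, hi, -, y, hy, hyv, hya⟩
      have hij : i = r := hs.injective hi
      subst hij
      rw [hrk] at hy
      rw [hrd] at hyv hya
      exact ⟨y.length, hy, (acceptsIn_iff_desc M a n _).2 ⟨y, rfl, hyv, hya⟩⟩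
    · rintro ⟨s, hs', hacc⟩
      obtain ⟨y, hyl, hyv, hya⟩ := (acceptsIn_iff_desc M a n _).1 hacc
      refine ⟨r, rfl, hg, y, ?_, ?_, ?_⟩
      · rw [hrk, hyl]; exact hs'
      · rw [hrd]; exact hyv
      · rw [hrd]; exact hya
  have hlen : (List.replicate n a).length = n := List.length_replicate
  have hv : VG C τ n := by
    by_contra hv
    obtain ⟨s, hs', hacc⟩ := hp _ (hMtot (List.replicate n a))
    refine hv (hVn.2 ⟨s, hs'.trans ?_, hacc⟩)
    rw [hlen, hn, tt2_of_not hid hs hv]
    have h5 := two_le_sN (τ := τ) r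
    have h6 := hid (sN τ r)
    exact (hk _ (by omega)).trans (Nat.pow_le_pow_left (hτG _).1 _)
  obtain ⟨s, hs', hsa⟩ := hVn.1 hv
  obtain ⟨r', hr', s1, -, hs1⟩ := hacc (List.replicate n a) (by rw [hlen]; exact hv)
  obtain ⟨s2, hs2, hs2a⟩ := hMclk _ s ⟨s1, hs1⟩ hsa
  have h7 := (hslow (List.replicate n a) s2 r (by rw [hlen]) hs2a).2
  rw [hlen, hrk] at h7
  omega

end Pool.Agent.H59.Clock
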